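import Pool.Agent.TH957.PB.Fin

/-!
# The quantitative alternative for `ζ(3)/π³` and a number attached to Catalan's constant
-/

open Filter Topology

namespace Pool.Agent.TH957.PB

open Pool.Agent.W34.GB

noncomputable section

set_option autoImplicit false

lemma Z3_pos : 0 < Z3 := by
  have hsum : Summable (fun j : ℕ => 1 / ((j : ℝ) + 1) ^ 3) := by
    have h := (Real.summable_one_div_nat_pow (p := 3)).mpr (by norm_num)
    have h2 := (summable_nat_add_iff 1).mpr h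
    refine h2.congr ?_
    intro j
    push_cast
    rfl
  exact hsum.tsum_pos (fun j => by positivity) 0 (by norm_num)

set_option maxHeartbeats 1000000 in
theorem alt_aux (e : ℤ) (he : (e : ℝ) = 1 ∨ (e : ℝ) = -1) : ∃ c : ℝ, 0 < c ∧ ∀ a s q t : ℤ, 0 < q → 0 < t →
    c * ((q : ℝ) * t) ^ (-(2000 : ℝ)) ≤ max |Z3 / Real.pi ^ 3 - (s : ℝ) / t|
      |8 * GC - Real.pi ^ 5 / (18 * Z3) - e * (2 / 3 * Real.pi ^ 2) - (a : ℝ) / q| := by
  obtain ⟨c1, hc1, h⟩ := pencil e he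
  have hZ := Z3_pos
  have hpi : 0 < Real.pi := Real.pi_pos
  set ξ : ℝ := Z3 / Real.pi ^ 3 with hξ
  have hξ0 : 0 < ξ := by rw [hξ]; positivity
  have hZξ : Z3 = ξ * Real.pi ^ 3 := by rw [hξ]; field_simp
  set K : ℝ := 18 * (ξ + 1) + 1 with hK
  have hK0 : 0 < K := by rw [hK]; positivity
  set C : ℝ := 18 * (ξ + 1) + Real.pi ^ 2 / ξ + 18 * Real.pi ^ 3 with hC
  have hC0 : 0 < C := by rw [hC]; positivity
  refine ⟨min ξ (min 1 (c1 * K ^ (-(1999 : ℝ)) / C)), by positivity, ?_⟩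
  intro a s q t hq ht
  have hqr : (1 : ℝ) ≤ q := by exact_mod_cast (by omega : (1 : ℤ) ≤ q)
  have htr : (1 : ℝ) ≤ t := by exact_mod_cast (by omega : (1 : ℤ) ≤ t)
  have hq0 : (0 : ℝ) < q := by linarith
  have ht0 : (0 : ℝ) < t := by linarith
  set x : ℝ := (q : ℝ) * t with hx
  have hx1 : 1 ≤ x := by rw [hx]; nlinarith
  have hx0 : 0 < x := by linarith
  have hxp : x ^ (-(2000 : ℝ)) ≤ 1 := Real.rpow_le_one_of_one_le_of_nonpos hx1 (by norm_num)
  have hxp0 : 0 < x ^ (-(2000 : ℝ)) := Real.rpow_pos_of_pos hx0 _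
  set X : ℝ := 8 * GC - Real.pi ^ 5 / (18 * Z3) - e * (2 / 3 * Real.pi ^ 2) with hX
  set m : ℝ := max |ξ - (s : ℝ) / t| |X - (a : ℝ) / q| with hm
  have hm1 : |ξ - (s : ℝ) / t| ≤ m := le_max_left _ _
  have hm2 : |X - (a : ℝ) / q| ≤ m := le_max_right _ _
  by_cases hs : s ≤ 0
  · -- `s ≤ 0`
    have h1 : (s : ℝ) / t ≤ 0 := div_nonpos_of_nonpos_of_nonneg (by exact_mod_cast hs) ht0.le
    have h2 : ξ ≤ |ξ - (s : ℝ) / t| := by
      rw [abs_of_nonneg (by linarith)]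
      linarith
    calc min ξ (min 1 (c1 * K ^ (-(1999 : ℝ)) / C)) * x ^ (-(2000 : ℝ)) ≤ ξ * 1 :=
          mul_le_mul (min_le_left _ _) hxp hxp0.le hξ0.le
      _ ≤ m := by linarith
  push Not at hs
  have hsr : (1 : ℝ) ≤ s := by exact_mod_cast (by omega : (1 : ℤ) ≤ s)
  by_cases hs2 : (ξ + 1) * t < s
  · have h1 : ξ + 1 < (s : ℝ) / t := by rwa [lt_div_iff₀ ht0]
    have h2 : 1 ≤ |ξ - (s : ℝ) / t| := by
      rw [abs_of_nonpos (by linarith)]
      linarith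
    calc min ξ (min 1 (c1 * K ^ (-(1999 : ℝ)) / C)) * x ^ (-(2000 : ℝ)) ≤ 1 * 1 :=
          mul_le_mul ((min_le_right _ _).trans (min_le_left _ _)) hxp hxp0.le zero_le_one
      _ ≤ m := by linarith
  push Not at hs2
  have heabs : |(e : ℝ)| = 1 := by
    rcases he with he | he <;> rw [he]
    · exact abs_one
    · rw [abs_neg]; exact abs_one
  have key := h (18 * s * q) (-((t + 12 * e * s) * q)) (18 * s * a) 0
    (by
      have h1 : 0 < 18 * s * q := by positivity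
      exact h1.ne') (K * x)
    (by
      push_cast
      rw [abs_of_nonneg (by positivity), hK, hx]
      have h2 : 18 * (s : ℝ) * q ≤ 18 * ((ξ + 1) * t) * q := by gcongr
      nlinarith [mul_pos hq0 ht0])
    (by
      push_cast
      rw [abs_neg, abs_mul, abs_of_pos hq0]
      have h2 : |(t : ℝ) + 12 * e * s| ≤ t + 12 * s := by
        refine (abs_add_le _ _).trans ?_
        rw [abs_of_pos ht0, abs_mul, abs_mul, heabs, abs_of_pos (by norm_num : (0 : ℝ) < 12),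
          abs_of_pos (by linarith : (0 : ℝ) < s)]
        linarith
      have h3 : (t : ℝ) + 12 * s ≤ (12 * (ξ + 1) + 1) * t := by linarith
      calc |(t : ℝ) + 12 * e * s| * q ≤ ((12 * (ξ + 1) + 1) * t) * q :=
            mul_le_mul_of_nonneg_right (h2.trans h3) hq0.le
        _ ≤ K * x := by
            rw [hK, hx]
            nlinarith [mul_pos hq0 ht0, mul_pos hξ0 (mul_pos hq0 ht0)])
  have e1 : 8 * (((18 * s * q : ℤ)) : ℝ) * GC + (((-((t + 12 * e * s) * q) : ℤ)) : ℝ) * Real.pi ^ 2 -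
      (((18 * s * a : ℤ)) : ℝ) = 18 * s * q * (X - (a : ℝ) / q) - q * t * Real.pi ^ 2 / ξ * (ξ - (s : ℝ) / t) := by
    rw [hX, hZξ]
    push_cast
    field_simp
    ring
  have e2 : (((18 * s * q : ℤ)) : ℝ) * (Real.pi ^ 3 + 12 * e * Z3) +
      18 * (((-((t + 12 * e * s) * q) : ℤ)) : ℝ) * Z3 - ((0 : ℤ) : ℝ) =
      -(18 * q * t * Real.pi ^ 3 * (ξ - (s : ℝ) / t)) := by
    rw [hZξ]
    push_cast
    field_simp
    ring
  rw [e1, e2] at key
  have hm0 : 0 ≤ m := (abs_nonneg _).trans hm1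
  have b1 : |18 * (s : ℝ) * q * (X - (a : ℝ) / q) - q * t * Real.pi ^ 2 / ξ * (ξ - (s : ℝ) / t)| ≤ C * x * m := by
    refine (abs_sub _ _).trans ?_
    rw [abs_mul (18 * (s : ℝ) * q), abs_mul ((q : ℝ) * t * Real.pi ^ 2 / ξ),
      abs_of_nonneg (by positivity : (0 : ℝ) ≤ 18 * s * q),
      abs_of_nonneg (by positivity : (0 : ℝ) ≤ q * t * Real.pi ^ 2 / ξ)]
    have t1 : 18 * (s : ℝ) * q * |X - (a : ℝ) / q| ≤ (18 * (ξ + 1) * x) * m := by
      apply mul_le_mul _ hm2 (abs_nonneg _) (by positivity)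
      rw [hx]
      have h2 : 18 * (s : ℝ) * q ≤ 18 * ((ξ + 1) * t) * q := by gcongr
      linarith
    have t2 : (q : ℝ) * t * Real.pi ^ 2 / ξ * |ξ - (s : ℝ) / t| ≤ (Real.pi ^ 2 / ξ * x) * m := by
      have : (q : ℝ) * t * Real.pi ^ 2 / ξ = Real.pi ^ 2 / ξ * x := by rw [hx]; ring
      rw [this]
      exact mul_le_mul_of_nonneg_left hm1 (by positivity)
    have t3 : 0 ≤ 18 * Real.pi ^ 3 * x * m := by positivity
    have t4 : C * x * m = (18 * (ξ + 1) * x) * m + (Real.pi ^ 2 / ξ * x) * m + 18 * Real.pi ^ 3 * x * m := by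
      rw [hC]; ring
    rw [t4]
    linarith
  have b2 : |-(18 * (q : ℝ) * t * Real.pi ^ 3 * (ξ - (s : ℝ) / t))| ≤ C * x * m := by
    rw [abs_neg, abs_mul (18 * (q : ℝ) * t * Real.pi ^ 3),
      abs_of_nonneg (by positivity : (0 : ℝ) ≤ 18 * q * t * Real.pi ^ 3)]
    have t1 : 18 * (q : ℝ) * t * Real.pi ^ 3 * |ξ - (s : ℝ) / t| ≤ (18 * Real.pi ^ 3 * x) * m := by
      have : 18 * (q : ℝ) * t * Real.pi ^ 3 = 18 * Real.pi ^ 3 * x := by rw [hx]; ring
      rw [this]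
      exact mul_le_mul_of_nonneg_left hm1 (by positivity)
    have t3 : 0 ≤ (18 * (ξ + 1) + Real.pi ^ 2 / ξ) * x * m := by positivity
    have t4 : C * x * m = (18 * (ξ + 1) + Real.pi ^ 2 / ξ) * x * m + (18 * Real.pi ^ 3 * x) * m := by
      rw [hC]; ring
    rw [t4]
    linarith
  have key2 : c1 * (K * x) ^ (-(1999 : ℝ)) ≤ C * x * m := key.trans (max_le b1 b2)
  rw [Real.mul_rpow hK0.le hx0.le] at key2
  have e3 : x ^ (-(1999 : ℝ)) = x ^ (-(2000 : ℝ)) * x := by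
    have : (-(1999 : ℝ)) = -(2000 : ℝ) + 1 := by norm_num
    rw [this, Real.rpow_add hx0, Real.rpow_one]
  rw [e3] at key2
  have key3 : c1 * K ^ (-(1999 : ℝ)) * x ^ (-(2000 : ℝ)) ≤ C * m := by
    have h1 : (c1 * K ^ (-(1999 : ℝ)) * x ^ (-(2000 : ℝ))) * x ≤ (C * m) * x := by
      calc _ = c1 * (K ^ (-(1999 : ℝ)) * (x ^ (-(2000 : ℝ)) * x)) := by ring
        _ ≤ C * x * m := key2
        _ = _ := by ring
    exact le_of_mul_le_mul_right h1 hx0
  calc min ξ (min 1 (c1 * K ^ (-(1999 : ℝ)) / C)) * x ^ (-(2000 : ℝ))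
      ≤ (c1 * K ^ (-(1999 : ℝ)) / C) * x ^ (-(2000 : ℝ)) :=
        mul_le_mul_of_nonneg_right ((min_le_right _ _).trans (min_le_right _ _)) hxp0.le
    _ = (c1 * K ^ (-(1999 : ℝ)) * x ^ (-(2000 : ℝ))) / C := by ring
    _ ≤ m := by
        rw [div_le_iff₀ hC0]
        linarith

/-- **the quantitative alternative** -/
theorem alt (ε : ℝ) (hε : ε = 1 ∨ ε = -1) : ∃ c : ℝ, 0 < c ∧ ∀ a s q t : ℤ, 0 < q → 0 < t →
    c * ((q : ℝ) * t) ^ (-(2000 : ℝ)) ≤ max |Z3 / Real.pi ^ 3 - (s : ℝ) / t|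
      |8 * GC - Real.pi ^ 5 / (18 * Z3) + ε * (2 / 3 * Real.pi ^ 2) - (a : ℝ) / q| := by
  rcases hε with rfl | rfl
  · obtain ⟨c, hc, h⟩ := alt_aux (-1) (Or.inr (by norm_num))
    refine ⟨c, hc, fun a s q t hq ht => ?_⟩
    have h1 := h a s q t hq ht
    have e : 8 * GC - Real.pi ^ 5 / (18 * Z3) - ((-1 : ℤ) : ℝ) * (2 / 3 * Real.pi ^ 2) - (a : ℝ) / q =
        8 * GC - Real.pi ^ 5 / (18 * Z3) + 1 * (2 / 3 * Real.pi ^ 2) - (a : ℝ) / q := by
      push_cast; ring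
    rw [e] at h1
    exact h1
  · obtain ⟨c, hc, h⟩ := alt_aux 1 (Or.inl (by norm_num))
    refine ⟨c, hc, fun a s q t hq ht => ?_⟩
    have h1 := h a s q t hq ht
    have e : 8 * GC - Real.pi ^ 5 / (18 * Z3) - ((1 : ℤ) : ℝ) * (2 / 3 * Real.pi ^ 2) - (a : ℝ) / q =
        8 * GC - Real.pi ^ 5 / (18 * Z3) + -1 * (2 / 3 * Real.pi ^ 2) - (a : ℝ) / q := by
      push_cast; ring
    rw [e] at h1
    exact h1

end

end Pool.Agent.TH957.PB
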