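import Pool.Agent.W34.GB.Stm
import Pool.Agent.TH957.WM.Coef

/-!
# The pole coefficients of the forms attached to Catalan's constant, relative to the sizes of the rows
-/

open Polynomial Pool.Agent.H337R2 Filter

namespace Pool.Agent.TH957.PB

open Pool.Agent.W34.GB

noncomputable section

set_option autoImplicit false

lemma AB_mono {c c' A A' : ℚ} {f : PowerSeries ℚ} (h : AB c A f) (hc : 0 ≤ c) (hcc : c ≤ c') (hA : 0 ≤ A)
    (hAA : A ≤ A') : AB c' A' f := by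
  intro j
  refine (h j).trans ?_
  exact mul_le_mul hAA (pow_le_pow_left₀ hc hcc j) (by positivity) (hA.trans hAA)

lemma AB_add {c A A' : ℚ} {f g : PowerSeries ℚ} (h : AB c A f) (h' : AB c A' g) : AB c (A + A') (f + g) := by
  intro j
  rw [map_add, add_mul]
  exact (abs_add_le _ _).trans (add_le_add (h j) (h' j))

lemma KK_le (h : ℕ) : (KK h : ℚ) ≤ h / 3 := by
  unfold KK
  have := Nat.cast_div_le (α := ℚ) (m := h) (n := 3)
  simpa using this

lemma KK_ge (h : ℕ) : (h : ℚ) / 3 - 2 / 3 ≤ KK h := by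
  unfold KK
  have h1 : h ≤ 3 * (h / 3) + 2 := by omega
  have h2 : (h : ℚ) ≤ ((3 * (h / 3) + 2 : ℕ) : ℚ) := by exact_mod_cast h1
  push_cast at h2
  have h3 : (((h / 3 : ℕ)) : ℚ) = ((h / 3 : ℕ) : ℚ) := rfl
  linarith

lemma zn_bd {σ : ℕ} (l : ℕ) (hσ : σ = 1 ∨ σ = 3) : 0 ≤ zn σ l ∧ zn σ l ≤ (l : ℚ) / 2 + 1 := by
  have h1 : (((l / 2 : ℕ)) : ℚ) ≤ (l : ℚ) / 2 := by
    have := Nat.cast_div_le (α := ℚ) (m := l) (n := 2)
    simpa using this
  have h0 : (0 : ℚ) ≤ ((l / 2 : ℕ) : ℚ) := by positivity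
  have h2 : 0 ≤ (if l % 2 = 0 then min ((σ : ℚ) / 4) (1 / 2) else max ((σ : ℚ) / 4) (1 / 2)) ∧
      (if l % 2 = 0 then min ((σ : ℚ) / 4) (1 / 2) else max ((σ : ℚ) / 4) (1 / 2)) ≤ 1 := by
    rcases hσ with rfl | rfl <;> split_ifs <;> norm_num
  unfold zn
  constructor <;> linarith [h2.1, h2.2]

lemma AB_Zp {σ h k j : ℕ} (hσ : σ = 1 ∨ σ = 3) (hh : 100 ≤ h) (hk : k ∈ sN h) (hj : j ≤ 2 * KK h) :
    AB (j : ℚ) ((5 / 2 * (h : ℚ)) ^ j) (TS (-(k : ℚ)) (Zp σ j)) := by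
  have hh1 : (100 : ℚ) ≤ h := by exact_mod_cast hh
  unfold sN at hk
  rw [Finset.mem_Icc] at hk
  have hk1 : (k : ℚ) ≤ 2 * h := by exact_mod_cast hk.2
  have hk0 : (1 : ℚ) ≤ k := by exact_mod_cast hk.1
  have hKK := KK_le h
  induction j with
  | zero =>
    unfold Zp
    rw [Finset.range_zero, Finset.prod_empty, map_one, pow_zero, Nat.cast_zero]
    exact AB.one
  | succ j ih =>
    have ih := ih (by omega)
    have e : Zp σ (j + 1) = Zp σ j * (X - C (zn σ j)) := by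
      unfold Zp
      rw [Finset.prod_range_succ]
    obtain ⟨z1, z2⟩ := zn_bd j hσ
    have hjK : (j : ℚ) / 2 ≤ h / 3 := by
      have h1 : ((j + 1 : ℕ) : ℚ) ≤ ((2 * KK h : ℕ) : ℚ) := by exact_mod_cast hj
      push_cast at h1
      linarith
    rw [e, map_mul, sub_eq_add_neg, ← C_neg, TS_lin, pow_succ]
    push_cast
    have h4 : |-(k : ℚ) + -zn σ j| = k + zn σ j := by
      rw [abs_of_nonpos (by linarith)]; ring
    apply AB.mul (by positivity) zero_le_one (by positivity) (by positivity) ih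
    refine AB_mono (WM.AB_linX (by rw [h4]; linarith)) zero_le_one le_rfl (abs_nonneg _) ?_
    rw [h4]
    linarith

lemma AB_mp {h k : ℕ} (hh : 100 ≤ h) (hk : k ∈ sN h) (n : ℕ) (hn : n ≤ 3 * h - 2 * KK h) :
    AB (n : ℚ) ((5 / 2 * (h : ℚ)) ^ n) (TS (-(k : ℚ)) ((mp n).comp (X - C ((KK h : ℚ) - 1 / 4)))) := by
  have hh1 : (100 : ℚ) ≤ h := by exact_mod_cast hh
  unfold sN at hk
  rw [Finset.mem_Icc] at hk
  have hk1 : (k : ℚ) ≤ 2 * h := by exact_mod_cast hk.2
  have hk0 : (1 : ℚ) ≤ k := by exact_mod_cast hk.1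
  have hKK := KK_le h
  have hKK2 := KK_ge h
  have hX : TS (-(k : ℚ)) ((X : ℚ[X]).comp (X - C ((KK h : ℚ) - 1 / 4))) =
      PowerSeries.X + PowerSeries.C (-(k : ℚ) + -((KK h : ℚ) - 1 / 4)) := by
    rw [X_comp, sub_eq_add_neg, ← C_neg, TS_lin]
  have habs : |-(k : ℚ) + -((KK h : ℚ) - 1 / 4)| = k + KK h - 1 / 4 := by
    rw [abs_of_nonpos (by linarith)]; ring
  have hlin : AB 1 (7 / 3 * (h : ℚ)) (PowerSeries.X + PowerSeries.C (-(k : ℚ) + -((KK h : ℚ) - 1 / 4))) := by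
    refine AB_mono (WM.AB_linX (by rw [habs]; linarith)) zero_le_one le_rfl (abs_nonneg _) ?_
    rw [habs]
    linarith
  induction n using Nat.strong_induction_on with
  | _ n ih =>
    rcases n with _ | _ | n
    · simp only [mp, one_comp, map_one, pow_zero, Nat.cast_zero]
      exact AB.one
    · simp only [mp, zero_add, pow_one, Nat.cast_one]
      rw [hX]
      exact AB_mono hlin zero_le_one le_rfl (by positivity) (by linarith)
    · have h1 := ih (n + 1) (by omega) (by omega)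
      have h2 := ih n (by omega) (by omega)
      have e : TS (-(k : ℚ)) ((mp (n + 2)).comp (X - C ((KK h : ℚ) - 1 / 4))) =
          (PowerSeries.X + PowerSeries.C (-(k : ℚ) + -((KK h : ℚ) - 1 / 4))) *
            TS (-(k : ℚ)) ((mp (n + 1)).comp (X - C ((KK h : ℚ) - 1 / 4))) +
            PowerSeries.C (((n : ℚ) + 1) * n / 16) *
              TS (-(k : ℚ)) ((mp n).comp (X - C ((KK h : ℚ) - 1 / 4))) := by
        rw [mp, add_comp, mul_comp, mul_comp, C_comp, map_add, map_mul, map_mul, hX, TS_C]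
      rw [e]
      have hn0 : (0 : ℚ) ≤ n := by positivity
      have hn1 : (n : ℚ) + 2 ≤ 7 / 3 * h + 4 / 3 := by
        have h3 : n + 2 + 2 * KK h ≤ 3 * h := by
          have : 2 * KK h ≤ 3 * h := by unfold KK; omega
          omega
        have h4 : ((n + 2 + 2 * KK h : ℕ) : ℚ) ≤ ((3 * h : ℕ) : ℚ) := by exact_mod_cast h3
        push_cast at h4
        linarith
      have hβ : ((n : ℚ) + 1) * n / 16 ≤ 49 / 144 * (h : ℚ) ^ 2 := by
        have h3 : (n : ℚ) + 1 ≤ 7 / 3 * h + 1 / 3 := by linarith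
        have h4 : (n : ℚ) ≤ 7 / 3 * h - 2 / 3 := by linarith
        have h5 : ((n : ℚ) + 1) * n ≤ (7 / 3 * h + 1 / 3) * (7 / 3 * h - 2 / 3) :=
          mul_le_mul h3 h4 hn0 (by linarith)
        nlinarith
      have p1 := AB.mul zero_le_one (by positivity) (by positivity) (by positivity) hlin h1
      have p2 : AB ((n : ℚ) + 2) ((49 / 144 * (h : ℚ) ^ 2) * (5 / 2 * (h : ℚ)) ^ n)
          (PowerSeries.C (((n : ℚ) + 1) * n / 16) *
              TS (-(k : ℚ)) ((mp n).comp (X - C ((KK h : ℚ) - 1 / 4)))) := by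
        have p3 : AB 0 (49 / 144 * (h : ℚ) ^ 2) (PowerSeries.C (((n : ℚ) + 1) * n / 16)) :=
          AB.C (by rw [abs_of_nonneg (by positivity)]; exact hβ)
        have p4 := AB.mul le_rfl (by positivity) (by positivity) (by positivity) p3 h2
        exact AB_mono p4 (by positivity) (by linarith) (by positivity) le_rfl
      have p5 : AB ((n : ℚ) + 2) ((7 / 3 * (h : ℚ)) * (5 / 2 * (h : ℚ)) ^ (n + 1))
          ((PowerSeries.X + PowerSeries.C (-(k : ℚ) + -((KK h : ℚ) - 1 / 4))) *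
            TS (-(k : ℚ)) ((mp (n + 1)).comp (X - C ((KK h : ℚ) - 1 / 4)))) := by
        refine AB_mono p1 (by positivity) ?_ (by positivity) le_rfl
        push_cast
        linarith
      have p6 := AB_add p5 p2
      have e2 : ((n + 1 + 1 : ℕ) : ℚ) = (n : ℚ) + 2 := by push_cast; ring
      rw [e2]
      refine AB_mono p6 (by positivity) le_rfl (by positivity) ?_
      have hp : 0 ≤ (5 / 2 * (h : ℚ)) ^ n := by positivity
      have e3 : (5 / 2 * (h : ℚ)) ^ (n + 1 + 1) = (5 / 2 * (h : ℚ)) ^ 2 * (5 / 2 * (h : ℚ)) ^ n := by ring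
      have e4 : 7 / 3 * (h : ℚ) * (5 / 2 * (h : ℚ)) ^ (n + 1) + 49 / 144 * (h : ℚ) ^ 2 * (5 / 2 * (h : ℚ)) ^ n =
          (35 / 6 * (h : ℚ) ^ 2 + 49 / 144 * (h : ℚ) ^ 2) * (5 / 2 * (h : ℚ)) ^ n := by ring
      rw [e3, e4]
      apply mul_le_mul_of_nonneg_right _ hp
      nlinarith [sq_nonneg (h : ℚ)]

lemma AB_PJ {σ h k j : ℕ} (hσ : σ = 1 ∨ σ = 3) (hh : 100 ≤ h) (hk : k ∈ sN h) (hj : j < 3 * h) :
    AB (j : ℚ) ((5 / 2 * (h : ℚ)) ^ j) (TS (-(k : ℚ)) (PJ h σ j)) := by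
  unfold PJ
  split_ifs with hc
  · exact AB_Zp hσ hh hk hc.le
  · obtain ⟨n, hn⟩ : ∃ n, j = 2 * KK h + n := ⟨j - 2 * KK h, by omega⟩
    have e : j - 2 * KK h = n := by omega
    rw [e, map_mul, hn, pow_add]
    have h1 := AB_Zp (j := 2 * KK h) hσ hh hk le_rfl
    have h2 := AB_mp hh hk n (by omega)
    have h3 := AB.mul (by positivity) (by positivity) (by positivity) (by positivity) h1 h2
    push_cast at h3 ⊢
    exact h3

/-- the product of the inverses of the local factors -/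
lemma AB_VV {h k : ℕ} (hh : 100 ≤ h) (hk : k ∈ sN h) :
    AB (6 * (h : ℚ)) ((2 ^ (2 * h) / ((2 * h - 1).factorial : ℚ)) ^ 3) (VV ((sN h).erase k) m3 (-(k : ℚ))) := by
  have h1 : AB (∑ m ∈ (sN h).erase k, (3 * 1 : ℚ)) (∏ m ∈ (sN h).erase k, (|-(k : ℚ) + m|⁻¹) ^ 3)
      (VV ((sN h).erase k) m3 (-(k : ℚ))) := by
    unfold VV
    apply AB.prod
    · intro m _; norm_num
    · intro m _; positivity
    · intro m hm
      have hmk := Finset.ne_of_mem_erase hm
      have h4 : 1 ≤ |-(k : ℚ) + m| := WM.abs_ge_one hmk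
      have := AB.pow zero_le_one (by positivity) (WM.AB_iv h4) 3
      have e : m3 m = 3 := rfl
      rw [e]
      have e2 : (((3 : ℕ) : ℚ)) * 1 = 3 * 1 := by norm_num
      rw [e2] at this
      exact this
  refine AB_mono h1 (by positivity) ?_ (by positivity) ?_
  · rw [Finset.sum_const, nsmul_eq_mul]
    have h2 : ((sN h).erase k).card ≤ 2 * h := by
      refine (Finset.card_erase_le).trans ?_
      unfold sN
      simp
    have h3 : (((sN h).erase k).card : ℚ) ≤ ((2 * h : ℕ) : ℚ) := by exact_mod_cast h2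
    push_cast at h3
    linarith
  · rw [Finset.prod_pow]
    apply pow_le_pow_left₀ (by positivity)
    have h2 := WM.fact_le k 1 (2 * h - 1)
    have e1 : 1 + (2 * h - 1) = 2 * h := by omega
    rw [e1] at h2
    have e2 : ∏ m ∈ Finset.Icc 1 (2 * h), (WM.gd k m)⁻¹ = ∏ m ∈ (sN h).erase k, (|-(k : ℚ) + m|⁻¹) := by
      have e3 : sN h = Finset.Icc 1 (2 * h) := rfl
      rw [← e3, ← Finset.mul_prod_erase _ _ hk]
      have e4 : (WM.gd k k)⁻¹ = 1 := by unfold WM.gd; simp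
      rw [e4, one_mul]
      apply Finset.prod_congr rfl
      intro m hm
      unfold WM.gd
      rw [if_neg (Finset.ne_of_mem_erase hm)]
    rw [e2] at h2
    rw [le_div_iff₀ (by positivity), mul_comm]
    refine h2.trans ?_
    exact pow_le_pow_right₀ (by norm_num) (by omega)

lemma pa_bd {σ h k i j e : ℕ} (hσ : σ = 1 ∨ σ = 3) (hh : 100 ≤ h) (hk : k ∈ sN h) (hi : i < 3 * h)
    (hj : j < 3 * h) (he : e = 2 ∨ e = 3) :
    |pa (sN h) m3 (PJ h σ i * PJ h σ j) k e| ≤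
      (5 / 2 * (h : ℚ)) ^ (i + j) * (2 ^ (2 * h) / ((2 * h - 1).factorial : ℚ)) ^ 3 * (12 * h) := by
  have hh1 : (100 : ℚ) ≤ h := by exact_mod_cast hh
  unfold pa
  have he3 : e ≤ m3 k := by unfold m3; omega
  rw [if_pos he3]
  unfold pfc
  have h1 : AB ((i : ℚ) + j) ((5 / 2 * (h : ℚ)) ^ (i + j)) (TS (-(k : ℚ)) (PJ h σ i * PJ h σ j)) := by
    rw [map_mul, pow_add]
    exact AB.mul (by positivity) (by positivity) (by positivity) (by positivity) (AB_PJ hσ hh hk hi)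
      (AB_PJ hσ hh hk hj)
  have h2 := AB.mul (by positivity) (by positivity) (by positivity) (by positivity) h1 (AB_VV hh hk)
  refine (h2 _).trans ?_
  apply mul_le_mul_of_nonneg_left _ (by positivity)
  have h3 : (i : ℚ) + j + 6 * h ≤ 12 * h := by
    have : ((i + j : ℕ) : ℚ) ≤ ((6 * h : ℕ) : ℚ) := by exact_mod_cast (by omega : i + j ≤ 6 * h)
    push_cast at this
    linarith
  have h4 : m3 k - e = 0 ∨ m3 k - e = 1 := by unfold m3; omega
  rcases h4 with h4 | h4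
  · rw [h4, pow_zero]; linarith
  · rw [h4, pow_one]; exact h3

/-- the pole functionals, real version -/
lemma sum_bd {σ h i j e : ℕ} (hσ : σ = 1 ∨ σ = 3) (hh : 100 ≤ h) (hi : i < 3 * h)
    (hj : j < 3 * h) (he : e = 2 ∨ e = 3) :
    |((∑ k ∈ sN h, pa (sN h) m3 (PJ h σ i * PJ h σ j) k e : ℚ) : ℝ)| ≤
      192 * (h : ℝ) ^ 5 * ((h : ℝ) ^ (i + j) / (h : ℝ) ^ (6 * h)) * Real.exp (23 / 2 * h) := by
  have hh1 : (100 : ℝ) ≤ h := by exact_mod_cast hh
  have h1 : |(∑ k ∈ sN h, pa (sN h) m3 (PJ h σ i * PJ h σ j) k e : ℚ)| ≤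
      (2 * h : ℚ) * ((5 / 2 * (h : ℚ)) ^ (i + j) * (2 ^ (2 * h) / ((2 * h - 1).factorial : ℚ)) ^ 3 * (12 * h)) := by
    refine (Finset.abs_sum_le_sum_abs _ _).trans ?_
    refine (Finset.sum_le_card_nsmul _ _ _ fun k hk => pa_bd hσ hh hk hi hj he).trans ?_
    rw [nsmul_eq_mul]
    unfold sN
    simp
  have h2 : |((∑ k ∈ sN h, pa (sN h) m3 (PJ h σ i * PJ h σ j) k e : ℚ) : ℝ)| ≤
      (2 * h : ℝ) * ((5 / 2 * (h : ℝ)) ^ (i + j) * (2 ^ (2 * h) / ((2 * h - 1).factorial : ℝ)) ^ 3 * (12 * h)) := by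
    rw [← Rat.cast_abs]
    have := (Rat.cast_le (K := ℝ)).2 h1
    push_cast at this ⊢
    exact this
  refine h2.trans ?_
  -- the factorial
  have hfac : (2 : ℝ) ^ (2 * h) / ((2 * h - 1).factorial : ℝ) ≤ 2 * h * (Real.exp (2 * h) / (h : ℝ) ^ (2 * h)) := by
    have e1 : ((2 * h).factorial : ℝ) = (2 * h) * ((2 * h - 1).factorial : ℝ) := by
      have := Nat.mul_factorial_pred (show 2 * h ≠ 0 by omega)
      have h3 : (((2 * h) * (2 * h - 1).factorial : ℕ) : ℝ) = (((2 * h).factorial : ℕ) : ℝ) := by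
        exact_mod_cast this
      push_cast at h3
      linarith
    have e2 := Real.pow_div_factorial_le_exp (2 * (h : ℝ)) (by positivity) (2 * h)
    have hf : (0 : ℝ) < ((2 * h - 1).factorial : ℝ) := by positivity
    rw [e1, div_le_iff₀ (by positivity)] at e2
    rw [div_le_iff₀ hf]
    have hp : (0 : ℝ) < (h : ℝ) ^ (2 * h) := by positivity
    have e3 : (2 * (h : ℝ)) ^ (2 * h) = 2 ^ (2 * h) * (h : ℝ) ^ (2 * h) := by rw [mul_pow]
    rw [e3] at e2
    rw [show 2 * (h : ℝ) * (Real.exp (2 * h) / (h : ℝ) ^ (2 * h)) * ((2 * h - 1).factorial : ℝ) =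
      (Real.exp (2 * h) * (2 * h * ((2 * h - 1).factorial : ℝ))) / (h : ℝ) ^ (2 * h) by ring, le_div_iff₀ hp]
    exact e2
  have h52 : (5 / 2 : ℝ) ^ (i + j) ≤ Real.exp (11 / 2 * h) := by
    have h3 : (5 / 2 : ℝ) ≤ Real.exp (11 / 12) := by
      have h4 : (5 / 2 : ℝ) ^ 12 ≤ Real.exp (11 / 12) ^ 12 := by
        rw [← Real.exp_nat_mul]
        have e5 : (((12 : ℕ) : ℝ)) * (11 / 12) = ((11 : ℕ) : ℝ) * 1 := by norm_num
        rw [e5, Real.exp_nat_mul]
        have h5 : (2.718 : ℝ) ≤ Real.exp 1 := by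
          have := Real.exp_one_gt_d9; linarith
        calc (5 / 2 : ℝ) ^ 12 ≤ 2.718 ^ 11 := by norm_num
          _ ≤ Real.exp 1 ^ 11 := pow_le_pow_left₀ (by norm_num) h5 11
      exact le_of_pow_le_pow_left₀ (by norm_num) (Real.exp_pos _).le h4
    calc (5 / 2 : ℝ) ^ (i + j) ≤ (Real.exp (11 / 12)) ^ (i + j) := pow_le_pow_left₀ (by norm_num) h3 _
      _ = Real.exp ((i + j : ℕ) * (11 / 12)) := by rw [Real.exp_nat_mul]
      _ ≤ _ := by
          apply Real.exp_le_exp.2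
          have : ((i + j : ℕ) : ℝ) ≤ 6 * h := by exact_mod_cast (by omega : i + j ≤ 6 * h)
          linarith
  have hh0 : (0 : ℝ) < h := by linarith
  calc (2 * h : ℝ) * ((5 / 2 * (h : ℝ)) ^ (i + j) * (2 ^ (2 * h) / ((2 * h - 1).factorial : ℝ)) ^ 3 * (12 * h))
      = (2 * h : ℝ) * (((5 / 2 : ℝ) ^ (i + j) * (h : ℝ) ^ (i + j)) *
          (2 ^ (2 * h) / ((2 * h - 1).factorial : ℝ)) ^ 3 * (12 * h)) := by rw [mul_pow]
    _ ≤ (2 * h : ℝ) * ((Real.exp (11 / 2 * h) * (h : ℝ) ^ (i + j)) *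
          (2 * h * (Real.exp (2 * h) / (h : ℝ) ^ (2 * h))) ^ 3 * (12 * h)) := by
        gcongr
    _ = 192 * (h : ℝ) ^ 5 * ((h : ℝ) ^ (i + j) / ((h : ℝ) ^ (2 * h)) ^ 3) * (Real.exp (11 / 2 * h) * Real.exp (2 * h) ^ 3) := by
        field_simp
        ring
    _ = _ := by
        have e1 : ((h : ℝ) ^ (2 * h)) ^ 3 = (h : ℝ) ^ (6 * h) := by rw [← pow_mul]; congr 1; ring
        have e2 : Real.exp (11 / 2 * (h : ℝ)) * Real.exp (2 * h) ^ 3 = Real.exp (23 / 2 * h) := by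
          rw [← Real.exp_nat_mul, ← Real.exp_add]
          congr 1
          push_cast
          ring
        rw [e1, e2]

/-! ### lower bounds for the sizes of the rows -/

lemma fac_ge (x : ℝ) (hx : 0 ≤ x) (n : ℕ) : x ^ n * Real.exp (-x) ≤ (n.factorial : ℝ) := by
  have h := Real.pow_div_factorial_le_exp x hx n
  rw [div_le_iff₀ (by positivity)] at h
  have h2 : x ^ n * Real.exp (-x) ≤ (Real.exp x * n.factorial) * Real.exp (-x) :=
    mul_le_mul_of_nonneg_right h (Real.exp_pos _).le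
  have h3 : (Real.exp x * n.factorial) * Real.exp (-x) = n.factorial := by
    rw [Real.exp_neg]
    field_simp
  linarith

lemma pow16 {n h : ℕ} (hn : 3 * n ≤ 7 * h + 4) : (16 : ℝ) ^ n ≤ Real.exp (648 / 100 * h + 4) := by
  have h3 : (16 : ℝ) = Real.exp (4 * Real.log 2) := by
    have h4 : Real.exp (4 * Real.log 2) = Real.exp (Real.log 2) ^ 4 := by
      rw [← Real.exp_nat_mul]; norm_num
    rw [h4, Real.exp_log (by norm_num)]
    norm_num
  rw [h3, ← Real.exp_nat_mul]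
  apply Real.exp_le_exp.2
  have h5 := Real.log_two_lt_d9
  have h6 : 3 * (n : ℝ) ≤ 7 * h + 4 := by exact_mod_cast hn
  have h7 : (0 : ℝ) ≤ n := by positivity
  have h8 : (n : ℝ) * (4 * Real.log 2) ≤ n * (4 * 0.6931471808) :=
    mul_le_mul_of_nonneg_left (by linarith) h7
  have h9 : (0 : ℝ) ≤ h := by positivity
  norm_num at h8
  linarith

lemma cc_ge {h n : ℕ} (hh : 100 ≤ h) (hn : n < 3 * h - 2 * KK h) :
    (h : ℝ) ^ (2 * (2 * KK h + n)) / (h : ℝ) ^ (6 * h) * Real.exp (-(108 / 10 * h + 4)) ≤ cc h n := by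
  have hh1 : (100 : ℝ) ≤ h := by exact_mod_cast hh
  have hh0 : (0 : ℝ) < h := by linarith
  have hpow : ∀ n : ℕ, (h : ℝ) ^ n = Real.exp (n * Real.log h) := by
    intro n
    rw [Real.exp_nat_mul, Real.exp_log hh0]
  unfold cc sR
  have h1 : ((h : ℝ) ^ n * Real.exp (-h)) ^ 2 ≤ (n.factorial : ℝ) ^ 2 :=
    pow_le_pow_left₀ (by positivity) (fac_ge h hh0.le n) 2
  have h2 : (16 : ℝ) ^ n ≤ Real.exp (648 / 100 * h + 4) := by
    apply pow16
    unfold KK at hn
    omega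
  rw [le_div_iff₀ (by positivity)]
  calc (h : ℝ) ^ (2 * (2 * KK h + n)) / (h : ℝ) ^ (6 * h) * Real.exp (-(108 / 10 * h + 4)) * 16 ^ n
      ≤ (h : ℝ) ^ (2 * (2 * KK h + n)) / (h : ℝ) ^ (6 * h) * Real.exp (-(108 / 10 * h + 4)) *
          Real.exp (648 / 100 * h + 4) := mul_le_mul_of_nonneg_left h2 (by positivity)
    _ ≤ Real.exp ((4 * (KK h : ℝ) - 6 * h) * Real.log h - 23 / 10 * h) * ((h : ℝ) ^ n * Real.exp (-h)) ^ 2 := by
        rw [hpow, hpow, hpow, ← Real.exp_sub, ← Real.exp_add, ← Real.exp_add, ← Real.exp_add, ← Real.exp_nat_mul,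
          ← Real.exp_add]
        apply Real.exp_le_exp.2
        push_cast
        nlinarith
    _ ≤ _ := mul_le_mul_of_nonneg_left h1 (Real.exp_pos _).le

lemma bb_ge {h j : ℕ} (hh : 100 ≤ h) (hj : j < 2 * KK h) :
    (h : ℝ) ^ (2 * j) / (h : ℝ) ^ (6 * h) * Real.exp (-(108 / 10 * h + 4)) ≤ bb h j := by
  have hh1 : (100 : ℝ) ≤ h := by exact_mod_cast hh
  have hh0 : (0 : ℝ) < h := by linarith
  have hK1 : (KK h : ℝ) ≤ h / 3 := by
    have := (Rat.cast_le (K := ℝ)).2 (KK_le h)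
    push_cast at this
    exact this
  have hK2 : (h : ℝ) / 4 ≤ KK h := by
    have := (Rat.cast_le (K := ℝ)).2 (KK_ge h)
    push_cast at this
    linarith
  have hK0 : (0 : ℝ) < KK h := by linarith
  unfold bb
  -- numerator
  have hnum : (KK h : ℝ) ^ j * Real.exp (-(2 * (KK h : ℝ))) ≤ ∏ i ∈ Finset.range j, ((KK h : ℝ) - (i : ℝ) / 2) := by
    have e1 : ∏ i ∈ Finset.range j, ((KK h : ℝ) - (i : ℝ) / 2) =
        ((2 * KK h).descFactorial j : ℝ) / 2 ^ j := by
      rw [Nat.descFactorial_eq_prod_range, Nat.cast_prod, ← Finset.card_range j, ← Finset.prod_const,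
        Finset.card_range, ← Finset.prod_div_distrib]
      apply Finset.prod_congr rfl
      intro i hi
      rw [Finset.mem_range] at hi
      rw [Nat.cast_sub (by omega)]
      push_cast
      ring
    have e2 : ((2 * KK h).factorial : ℝ) = ((2 * KK h - j).factorial : ℝ) * ((2 * KK h).descFactorial j : ℝ) := by
      have := Nat.factorial_mul_descFactorial (show j ≤ 2 * KK h by omega)
      exact_mod_cast this.symm
    have e3 : ((2 * KK h - j).factorial : ℝ) ≤ (2 * (KK h : ℝ)) ^ (2 * KK h - j) := by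
      have h1 : (2 * KK h - j).factorial ≤ (2 * KK h - j) ^ (2 * KK h - j) := Nat.factorial_le_pow _
      have h2 : (2 * KK h - j) ^ (2 * KK h - j) ≤ (2 * KK h) ^ (2 * KK h - j) :=
        Nat.pow_le_pow_left (by omega) _
      have h3 : (((2 * KK h - j).factorial : ℕ) : ℝ) ≤ (((2 * KK h) ^ (2 * KK h - j) : ℕ) : ℝ) := by
        exact_mod_cast h1.trans h2
      push_cast at h3
      exact h3
    have e4 := fac_ge (2 * (KK h : ℝ)) (by positivity) (2 * KK h)
    rw [e2] at e4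
    have hD0 : (0 : ℝ) ≤ ((2 * KK h).descFactorial j : ℝ) := by positivity
    have e5 : (2 * (KK h : ℝ)) ^ (2 * KK h) = (2 * (KK h : ℝ)) ^ (2 * KK h - j) * (2 * (KK h : ℝ)) ^ j := by
      rw [← pow_add]; congr 1; omega
    have e6 : (2 * (KK h : ℝ)) ^ (2 * KK h - j) * ((2 * (KK h : ℝ)) ^ j * Real.exp (-(2 * (KK h : ℝ)))) ≤
        (2 * (KK h : ℝ)) ^ (2 * KK h - j) * ((2 * KK h).descFactorial j : ℝ) := by
      calc _ = (2 * (KK h : ℝ)) ^ (2 * KK h) * Real.exp (-(2 * (KK h : ℝ))) := by rw [e5]; ring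
        _ ≤ _ := e4
        _ ≤ _ := mul_le_mul_of_nonneg_right e3 hD0
    have e7 := le_of_mul_le_mul_left e6 (by positivity)
    rw [e1, le_div_iff₀ (by positivity)]
    calc (KK h : ℝ) ^ j * Real.exp (-(2 * (KK h : ℝ))) * 2 ^ j = (2 * (KK h : ℝ)) ^ j * Real.exp (-(2 * (KK h : ℝ))) := by
          rw [mul_pow]; ring
      _ ≤ _ := e7
  have hnum2 : (h : ℝ) ^ (2 * j) / Real.exp (13 / 4 * h) ≤ ∏ i ∈ Finset.range j, ((KK h : ℝ) - (i : ℝ) / 2) ^ 2 := by
    rw [Finset.prod_pow]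
    have h1 : ((h : ℝ) / 4) ^ j * Real.exp (-(2 / 3 * h)) ≤ ∏ i ∈ Finset.range j, ((KK h : ℝ) - (i : ℝ) / 2) := by
      refine le_trans ?_ hnum
      apply mul_le_mul (pow_le_pow_left₀ (by positivity) hK2 j) _ (Real.exp_pos _).le (by positivity)
      apply Real.exp_le_exp.2
      linarith
    refine le_trans ?_ (pow_le_pow_left₀ (by positivity) h1 2)
    have h16 : (16 : ℝ) ^ j ≤ Real.exp (185 / 100 * h) := by
      have h3 : (16 : ℝ) = Real.exp (4 * Real.log 2) := by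
        have h4 : Real.exp (4 * Real.log 2) = Real.exp (Real.log 2) ^ 4 := by
          rw [← Real.exp_nat_mul]; norm_num
        rw [h4, Real.exp_log (by norm_num)]
        norm_num
      rw [h3, ← Real.exp_nat_mul]
      apply Real.exp_le_exp.2
      have h5 := Real.log_two_lt_d9
      have h6 : (j : ℝ) ≤ 2 / 3 * h := by
        have h7 : (j : ℝ) ≤ 2 * KK h := by exact_mod_cast hj.le
        linarith
      have h7 : (0 : ℝ) ≤ j := by positivity
      have h8 : (j : ℝ) * (4 * Real.log 2) ≤ j * (4 * 0.6931471808) :=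
        mul_le_mul_of_nonneg_left (by linarith) h7
      norm_num at h8
      linarith
    have e1 : (((h : ℝ) / 4) ^ j * Real.exp (-(2 / 3 * h))) ^ 2 =
        (h : ℝ) ^ (2 * j) * (Real.exp (-(4 / 3 * h)) / 16 ^ j) := by
      have a1 : ((h : ℝ) ^ j) ^ 2 = (h : ℝ) ^ (2 * j) := by rw [← pow_mul, mul_comm]
      have a2 : ((4 : ℝ) ^ j) ^ 2 = 16 ^ j := by
        rw [← pow_mul, mul_comm, pow_mul]; norm_num
      have a3 : Real.exp (-(2 / 3 * (h : ℝ))) ^ 2 = Real.exp (-(4 / 3 * h)) := by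
        rw [← Real.exp_nat_mul]
        congr 1
        push_cast
        ring
      rw [← a1, ← a2, ← a3, div_pow]
      ring
    rw [e1, div_eq_mul_inv, ← Real.exp_neg]
    apply mul_le_mul_of_nonneg_left _ (by positivity)
    rw [le_div_iff₀ (by positivity)]
    calc Real.exp (-(13 / 4 * (h : ℝ))) * 16 ^ j ≤ Real.exp (-(13 / 4 * (h : ℝ))) * Real.exp (185 / 100 * h) :=
          mul_le_mul_of_nonneg_left h16 (Real.exp_pos _).le
      _ ≤ _ := by
          rw [← Real.exp_add]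
          apply Real.exp_le_exp.2
          linarith
  -- denominator
  have hden : (∏ k ∈ Finset.Icc 1 (2 * h), ((j : ℝ) / 2 + k)) ^ 3 ≤ (h : ℝ) ^ (6 * h) * Real.exp (51 / 10 * h) := by
    have h1 : ∏ k ∈ Finset.Icc 1 (2 * h), ((j : ℝ) / 2 + k) ≤ (7 / 3 * (h : ℝ)) ^ (2 * h) := by
      have h2 : ∏ k ∈ Finset.Icc 1 (2 * h), ((j : ℝ) / 2 + k) ≤
          ∏ _k ∈ Finset.Icc 1 (2 * h), (7 / 3 * (h : ℝ)) := by
        apply Finset.prod_le_prod
        · intro k _; positivity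
        · intro k hk
          rw [Finset.mem_Icc] at hk
          have h3 : (k : ℝ) ≤ 2 * h := by exact_mod_cast hk.2
          have h4 : (j : ℝ) ≤ 2 * KK h := by exact_mod_cast hj.le
          linarith
      rw [Finset.prod_const, Nat.card_Icc] at h2
      simpa using h2
    have h73 : (7 / 3 : ℝ) ^ (6 * h) ≤ Real.exp (51 / 10 * h) := by
      have h3 : (7 / 3 : ℝ) ≤ Real.exp (17 / 20) := by
        have h4 : (7 / 3 : ℝ) ^ 20 ≤ Real.exp (17 / 20) ^ 20 := by
          rw [← Real.exp_nat_mul]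
          have e5 : (((20 : ℕ) : ℝ)) * (17 / 20) = ((17 : ℕ) : ℝ) * 1 := by norm_num
          rw [e5, Real.exp_nat_mul]
          have h5 : (2.718 : ℝ) ≤ Real.exp 1 := by
            have := Real.exp_one_gt_d9; linarith
          calc (7 / 3 : ℝ) ^ 20 ≤ 2.718 ^ 17 := by norm_num
            _ ≤ Real.exp 1 ^ 17 := pow_le_pow_left₀ (by norm_num) h5 17
        exact le_of_pow_le_pow_left₀ (by norm_num) (Real.exp_pos _).le h4
      calc (7 / 3 : ℝ) ^ (6 * h) ≤ (Real.exp (17 / 20)) ^ (6 * h) := pow_le_pow_left₀ (by norm_num) h3 _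
        _ = Real.exp ((6 * h : ℕ) * (17 / 20)) := by rw [Real.exp_nat_mul]
        _ = _ := by congr 1; push_cast; ring
    calc (∏ k ∈ Finset.Icc 1 (2 * h), ((j : ℝ) / 2 + k)) ^ 3 ≤ ((7 / 3 * (h : ℝ)) ^ (2 * h)) ^ 3 :=
          pow_le_pow_left₀ (Finset.prod_nonneg fun k _ => by positivity) h1 3
      _ = (h : ℝ) ^ (6 * h) * (7 / 3 : ℝ) ^ (6 * h) := by
          rw [← pow_mul, ← mul_pow]
          have : 2 * h * 3 = 6 * h := by ring
          rw [this]
          congr 1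
          ring
      _ ≤ _ := mul_le_mul_of_nonneg_left h73 (by positivity)
  have hdpos : 0 < (∏ k ∈ Finset.Icc 1 (2 * h), ((j : ℝ) / 2 + k)) ^ 3 := by
    apply pow_pos
    apply Finset.prod_pos
    intro k hk
    rw [Finset.mem_Icc] at hk
    have h3 : (1 : ℝ) ≤ k := by exact_mod_cast hk.1
    positivity
  calc (h : ℝ) ^ (2 * j) / (h : ℝ) ^ (6 * h) * Real.exp (-(108 / 10 * h + 4))
      ≤ ((h : ℝ) ^ (2 * j) / Real.exp (13 / 4 * h)) / ((h : ℝ) ^ (6 * h) * Real.exp (51 / 10 * h)) := by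
        rw [Real.exp_neg, div_div, ← div_eq_mul_inv, div_div]
        apply div_le_div_of_nonneg_left (by positivity) (by positivity)
        have e1 : Real.exp (13 / 4 * (h : ℝ)) * ((h : ℝ) ^ (6 * h) * Real.exp (51 / 10 * h)) =
            (h : ℝ) ^ (6 * h) * Real.exp (13 / 4 * h + 51 / 10 * h) := by
          rw [Real.exp_add]; ring
        rw [e1]
        apply mul_le_mul_of_nonneg_left _ (by positivity)
        apply Real.exp_le_exp.2
        linarith
    _ ≤ _ := div_le_div₀ (by positivity) hnum2 hdpos hden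

lemma aa_ge {h j : ℕ} (hh : 100 ≤ h) (hj : j < 3 * h) :
    (h : ℝ) ^ (2 * j) / (h : ℝ) ^ (6 * h) * Real.exp (-(108 / 10 * h + 4)) ≤ aa h j := by
  unfold aa
  split_ifs with hc
  · exact bb_ge hh hc
  · have := cc_ge (n := j - 2 * KK h) hh (by omega)
    have e : 2 * KK h + (j - 2 * KK h) = j := by omega
    rwa [e] at this

lemma aa_pos {h j : ℕ} (hh : 100 ≤ h) (hj : j < 3 * h) : 0 < aa h j := by
  have hh0 : (0 : ℝ) < h := by
    have : 0 < h := by omega
    exact_mod_cast this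
  exact lt_of_lt_of_le (by positivity) (aa_ge hh hj)

/-- **the refined bound**: the pole functionals relative to the sizes of the rows -/
theorem ratio : ∀ᶠ h : ℕ in atTop, ∀ σ : ℕ, (σ = 1 ∨ σ = 3) → ∀ i < 3 * h, ∀ j < 3 * h, ∀ e : ℕ, (e = 2 ∨ e = 3) →
    |((∑ k ∈ sN h, pa (sN h) m3 (PJ h σ i * PJ h σ j) k e : ℚ) : ℝ)| ≤
      1 / 2 * Real.exp (45 / 2 * h) * Real.sqrt (aa h i * aa h j) := by
  have hpoly : ∀ᶠ h : ℕ in atTop, 192 * (h : ℝ) ^ 5 * Real.exp 4 * 2 ≤ Real.exp (1 / 5 * h) := by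
    have h1 : Tendsto (fun x : ℝ => x ^ 5 * Real.exp (-x)) atTop (nhds 0) :=
      Real.tendsto_pow_mul_exp_neg_atTop_nhds_zero 5
    have t1 : Tendsto (fun h : ℕ => (1 / 5 : ℝ) * (h : ℝ)) atTop atTop :=
      (tendsto_natCast_atTop_atTop).const_mul_atTop (by norm_num)
    have h2 := (h1.comp t1).const_mul (192 * 5 ^ 5 * Real.exp 4 * 2)
    rw [mul_zero] at h2
    filter_upwards [h2.eventually (gt_mem_nhds one_pos)] with h h3
    simp only [Function.comp] at h3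
    have h4 : Real.exp (-(1 / 5 * (h : ℝ))) * Real.exp (1 / 5 * h) = 1 := by rw [← Real.exp_add]; simp
    calc 192 * (h : ℝ) ^ 5 * Real.exp 4 * 2
        = (192 * 5 ^ 5 * Real.exp 4 * 2 * ((1 / 5 * (h : ℝ)) ^ 5 * Real.exp (-(1 / 5 * h)))) * Real.exp (1 / 5 * h) := by
          calc 192 * (h : ℝ) ^ 5 * Real.exp 4 * 2 = 192 * 5 ^ 5 * Real.exp 4 * 2 * (1 / 5 * (h : ℝ)) ^ 5 *
                (Real.exp (-(1 / 5 * (h : ℝ))) * Real.exp (1 / 5 * h)) := by rw [h4]; ring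
            _ = _ := by ring
      _ ≤ 1 * Real.exp (1 / 5 * h) := mul_le_mul_of_nonneg_right h3.le (Real.exp_pos _).le
      _ = _ := one_mul _
  filter_upwards [hpoly, eventually_ge_atTop 100] with h hpoly hh σ hσ i hi j hj e he
  have hh1 : (100 : ℝ) ≤ h := by exact_mod_cast hh
  have hh0 : (0 : ℝ) < h := by linarith
  refine (sum_bd hσ hh hi hj he).trans ?_
  set F : ℝ := (h : ℝ) ^ (i + j) / (h : ℝ) ^ (6 * h) with hF
  have hF0 : 0 < F := by rw [hF]; positivity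
  have hS : F * Real.exp (-(108 / 10 * h + 4)) ≤ Real.sqrt (aa h i * aa h j) := by
    apply Real.le_sqrt_of_sq_le
    have h1 := aa_ge hh hi
    have h2 := aa_ge hh hj
    calc (F * Real.exp (-(108 / 10 * h + 4))) ^ 2
        = ((h : ℝ) ^ (2 * i) / (h : ℝ) ^ (6 * h) * Real.exp (-(108 / 10 * h + 4))) *
          ((h : ℝ) ^ (2 * j) / (h : ℝ) ^ (6 * h) * Real.exp (-(108 / 10 * h + 4))) := by
          rw [hF]
          have e1 : (h : ℝ) ^ (2 * i) * (h : ℝ) ^ (2 * j) = ((h : ℝ) ^ (i + j)) ^ 2 := by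
            rw [← pow_add, ← pow_mul]; congr 1; ring
          calc _ = ((h : ℝ) ^ (i + j)) ^ 2 / ((h : ℝ) ^ (6 * h)) ^ 2 * Real.exp (-(108 / 10 * h + 4)) ^ 2 := by
                rw [mul_pow, div_pow]
            _ = _ := by rw [← e1]; ring
      _ ≤ aa h i * aa h j := mul_le_mul h1 h2 (by positivity) (aa_pos hh hi).le
  have e1 : Real.exp (-(108 / 10 * (h : ℝ) + 4)) * (Real.exp 4 * Real.exp (108 / 10 * h)) = 1 := by
    rw [← Real.exp_add, ← Real.exp_add]
    have : -(108 / 10 * (h : ℝ) + 4) + (4 + 108 / 10 * h) = 0 := by ring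
    rw [this, Real.exp_zero]
  have e2 : Real.exp (45 / 2 * (h : ℝ)) = Real.exp (108 / 10 * h) * Real.exp (23 / 2 * h) * Real.exp (1 / 5 * h) := by
    rw [← Real.exp_add, ← Real.exp_add]
    congr 1
    ring
  calc 192 * (h : ℝ) ^ 5 * F * Real.exp (23 / 2 * h)
      = (192 * (h : ℝ) ^ 5 * Real.exp 4 * 2) * (1 / 2) * (Real.exp (108 / 10 * h) * Real.exp (23 / 2 * h)) *
          (F * Real.exp (-(108 / 10 * h + 4))) := by
        calc 192 * (h : ℝ) ^ 5 * F * Real.exp (23 / 2 * h) = 192 * (h : ℝ) ^ 5 * F * Real.exp (23 / 2 * h) *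
              (Real.exp (-(108 / 10 * (h : ℝ) + 4)) * (Real.exp 4 * Real.exp (108 / 10 * h))) := by rw [e1]; ring
          _ = _ := by ring
    _ ≤ Real.exp (1 / 5 * h) * (1 / 2) * (Real.exp (108 / 10 * h) * Real.exp (23 / 2 * h)) *
          Real.sqrt (aa h i * aa h j) := by
        gcongr
    _ = _ := by rw [e2]; ring

end

end Pool.Agent.TH957.PB
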