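import Pool.Agent.W34.GB.A6d
import Pool.Agent.TH957.PB.Num

/-!
# The archimedean bound at rational points at distance `exp (-45 h / 2)`

Adapted from `Pool/Agent/W34/GB/A6d.lean`.
-/

open Polynomial Pool.Agent.H337R2 Filter Topology MeasureTheory

namespace Pool.Agent.TH957.PB

open Pool.Agent.W34.GB

noncomputable section

set_option autoImplicit false

/-- the entries -/
def EntryE : Prop := ∀ (σ : ℕ), (σ = 1 ∨ σ = 3) → ∃ E : ℝ, 0 < E ∧ ∀ᶠ h : ℕ in atTop,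
  (∀ j < 3 * h, 0 < aa h j) ∧ ∀ w u v : ℚ,
  |(u : ℝ) - thX σ w| ≤ Real.exp (-(45 / 2 * h)) →
  |(v : ℝ) - thY σ w| ≤ Real.exp (-(45 / 2 * h)) →
  ∀ i < 3 * h, ∀ j < 3 * h,
    |((NL h σ w u v (PJ h σ i * PJ h σ j) : ℚ) : ℝ)| ≤
      E * (1 + |(w : ℝ)|) * (h : ℝ) ^ 2 * Real.sqrt (aa h i * aa h j)

theorem EntryE_of (hA1 : A1s) (hL : RowL) (hz : A4z) : EntryE := by
  intro σ hσ
  obtain ⟨DL, hDL, hL⟩ := hL
  have hb1 : adm σ ((σ : ℝ) / 4) := ⟨hσ, Or.inl rfl⟩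
  have hb2 : adm σ (1 / 2) := ⟨hσ, Or.inr rfl⟩
  obtain ⟨Dk1, hDk1, hk1⟩ := adm_ker hb1
  obtain ⟨Dk2, hDk2, hk2⟩ := adm_ker hb2
  refine ⟨2 + 8 * Dk1 * DL + 8 * Dk2 * DL, by positivity, ?_⟩
  filter_upwards [hL, ratio, eventually_ge_atTop 100] with h hL h7 hh100
  have hh : 3 ≤ h := by omega
  have haa : ∀ j < 3 * h, 0 < aa h j := fun j hj => aa_pos hh100 hj
  refine ⟨haa, ?_⟩
  intro w u v hu hv i hi j hj
  have hai := haa i hi
  have haj := haa j hj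
  have hdeg : (PJ h σ i * PJ h σ j).natDegree + 2 ≤ 6 * h := by
    rw [(PJ_monic h σ i).1.natDegree_mul (PJ_monic h σ j).1, (PJ_monic h σ i).2, (PJ_monic h σ j).2]
    omega
  have hA := hA1 h σ w u v (PJ h σ i * PJ h σ j) hh hσ hdeg
  have hh3 : (3 : ℝ) ≤ h := by exact_mod_cast hh
  set S := Real.sqrt (aa h i * aa h j) with hS
  have hS0 : 0 < S := Real.sqrt_pos.2 (mul_pos hai haj)
  -- the zone
  have hzone : |((∑ l ∈ Finset.range (W34.GB.KK h), (Rq h ((l : ℚ) + (σ : ℚ) / 4) *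
      (PJ h σ i * PJ h σ j).eval ((l : ℚ) + (σ : ℚ) / 4) +
      w * (Rq h ((l : ℚ) + 1 / 2) * (PJ h σ i * PJ h σ j).eval ((l : ℚ) + 1 / 2))) : ℚ) : ℝ)| ≤
      (1 + |(w : ℝ)|) * (h : ℝ) ^ 2 * S := by
    rw [Rat.cast_sum]
    refine (Finset.abs_sum_le_sum_abs _ _).trans ?_
    have h1 : ∀ l ∈ Finset.range (W34.GB.KK h), |((Rq h ((l : ℚ) + (σ : ℚ) / 4) *
      (PJ h σ i * PJ h σ j).eval ((l : ℚ) + (σ : ℚ) / 4) +
      w * (Rq h ((l : ℚ) + 1 / 2) * (PJ h σ i * PJ h σ j).eval ((l : ℚ) + 1 / 2)) : ℚ) : ℝ)| ≤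
        (1 + |(w : ℝ)|) * S := by
      intro l hl
      rw [Finset.mem_range] at hl
      obtain ⟨⟨l1, hl1, e1⟩, ⟨l2, hl2, e2⟩⟩ := zn_node hσ l
      have z1 := zone_one hz hh hσ hai haj (show l1 < 2 * W34.GB.KK h by omega)
      have z2 := zone_one hz hh hσ hai haj (show l2 < 2 * W34.GB.KK h by omega)
      rw [e1] at z1
      rw [e2] at z2
      rw [Rat.cast_add, Rat.cast_mul w]
      refine (abs_add_le _ _).trans ?_
      rw [abs_mul (w : ℝ)]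
      have := mul_le_mul_of_nonneg_left z2 (abs_nonneg (w : ℝ))
      linarith
    refine (Finset.sum_le_sum h1).trans ?_
    rw [Finset.sum_const, Finset.card_range, nsmul_eq_mul]
    have h2 : (W34.GB.KK h : ℝ) ≤ (h : ℝ) ^ 2 := by
      have h3 : (W34.GB.KK h : ℝ) ≤ h := by
        exact_mod_cast (by unfold W34.GB.KK; omega : W34.GB.KK h ≤ h)
      nlinarith
    have h4 : 0 ≤ (1 + |(w : ℝ)|) * S := by positivity
    calc (W34.GB.KK h : ℝ) * ((1 + |(w : ℝ)|) * S) ≤ (h : ℝ) ^ 2 * ((1 + |(w : ℝ)|) * S) :=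
          mul_le_mul_of_nonneg_right h2 h4
      _ = _ := by ring
  -- the lines
  have hl1 := line_bd hb1 hDk1 hDL hk1 hh hai haj (fun y => hL σ _ y hb1 i hi hai) (fun y => hL σ _ y hb1 j hj haj)
  have hl2 := line_bd hb2 hDk2 hDL hk2 hh hai haj (fun y => hL σ _ y hb2 i hi hai) (fun y => hL σ _ y hb2 j hj haj)
  rw [← hS] at hl1 hl2
  -- the perturbation
  have hpert : |(((u : ℝ) - thX σ w) * ((∑ k ∈ sN h, pa (sN h) m3 (PJ h σ i * PJ h σ j) k 2 : ℚ) : ℝ) +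
      ((v : ℝ) - thY σ w) * ((∑ k ∈ sN h, pa (sN h) m3 (PJ h σ i * PJ h σ j) k 3 : ℚ) : ℝ))| ≤ (h : ℝ) ^ 2 * S := by
    have p2 := h7 σ hσ i hi j hj 2 (Or.inl rfl)
    have p3 := h7 σ hσ i hi j hj 3 (Or.inr rfl)
    rw [← hS] at p2 p3
    refine (abs_add_le _ _).trans ?_
    rw [abs_mul, abs_mul]
    have q2 := mul_le_mul hu p2 (abs_nonneg _) (Real.exp_pos _).le
    have q3 := mul_le_mul hv p3 (abs_nonneg _) (Real.exp_pos _).le
    have e : Real.exp (-(45 / 2 * (h : ℝ))) * (1 / 2 * Real.exp (45 / 2 * h) * S) = 1 / 2 * S := by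
      have : Real.exp (-(45 / 2 * (h : ℝ))) * Real.exp (45 / 2 * h) = 1 := by rw [← Real.exp_add]; simp
      calc _ = 1 / 2 * (Real.exp (-(45 / 2 * (h : ℝ))) * Real.exp (45 / 2 * h)) * S := by ring
        _ = _ := by rw [this, mul_one]
    rw [e] at q2 q3
    have h9 : (1 : ℝ) ≤ (h : ℝ) ^ 2 := by nlinarith
    have h10 : S ≤ (h : ℝ) ^ 2 * S := by nlinarith
    linarith
  -- conclusion
  have hn : |((NL h σ w u v (PJ h σ i * PJ h σ j) : ℚ) : ℝ)| =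
      ‖(((NL h σ w u v (PJ h σ i * PJ h σ j) : ℚ) : ℝ) : ℂ)‖ := by
    rw [Complex.norm_real, Real.norm_eq_abs]
  rw [hn, hA]
  refine (norm_add_le _ _).trans ?_
  rw [Complex.norm_real, Real.norm_eq_abs]
  have n1 := norm_sub_le
    ((((∑ l ∈ Finset.range (W34.GB.KK h), (Rq h ((l : ℚ) + (σ : ℚ) / 4) *
      (PJ h σ i * PJ h σ j).eval ((l : ℚ) + (σ : ℚ) / 4) +
      w * (Rq h ((l : ℚ) + 1 / 2) * (PJ h σ i * PJ h σ j).eval ((l : ℚ) + 1 / 2))) : ℚ) : ℝ) : ℂ)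
      - (∫ y : ℝ, Rc h (ln h ((σ : ℝ) / 4) y) * aeval (ln h ((σ : ℝ) / 4) y) (PJ h σ i * PJ h σ j) *
        ((ker ((σ : ℝ) / 4) y : ℝ) : ℂ)))
    (((w : ℝ) : ℂ) * (∫ y : ℝ, Rc h (ln h (1 / 2) y) * aeval (ln h (1 / 2) y) (PJ h σ i * PJ h σ j) *
        ((ker (1 / 2) y : ℝ) : ℂ)))
  have n2 := norm_sub_le
    (((∑ l ∈ Finset.range (W34.GB.KK h), (Rq h ((l : ℚ) + (σ : ℚ) / 4) *
      (PJ h σ i * PJ h σ j).eval ((l : ℚ) + (σ : ℚ) / 4) +
      w * (Rq h ((l : ℚ) + 1 / 2) * (PJ h σ i * PJ h σ j).eval ((l : ℚ) + 1 / 2))) : ℚ) : ℝ) : ℂ)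
    (∫ y : ℝ, Rc h (ln h ((σ : ℝ) / 4) y) * aeval (ln h ((σ : ℝ) / 4) y) (PJ h σ i * PJ h σ j) *
        ((ker ((σ : ℝ) / 4) y : ℝ) : ℂ))
  rw [Complex.norm_real, Real.norm_eq_abs] at n2
  rw [norm_mul, Complex.norm_real, Real.norm_eq_abs] at n1
  have hl2' := mul_le_mul_of_nonneg_left hl2 (abs_nonneg (w : ℝ))
  have hw0 : 0 ≤ |(w : ℝ)| := abs_nonneg _
  have hM0 : 0 ≤ (h : ℝ) ^ 2 * S := by positivity
  have hfin : (1 + |(w : ℝ)|) * (h : ℝ) ^ 2 * S + 8 * Dk1 * DL * (h : ℝ) ^ 2 * S +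
        |(w : ℝ)| * (8 * Dk2 * DL * (h : ℝ) ^ 2 * S) + (h : ℝ) ^ 2 * S ≤
      (2 + 8 * Dk1 * DL + 8 * Dk2 * DL) * (1 + |(w : ℝ)|) * (h : ℝ) ^ 2 * S := by
    have e1 : (2 + 8 * Dk1 * DL + 8 * Dk2 * DL) * (1 + |(w : ℝ)|) * (h : ℝ) ^ 2 * S -
        ((1 + |(w : ℝ)|) * (h : ℝ) ^ 2 * S + 8 * Dk1 * DL * (h : ℝ) ^ 2 * S +
        |(w : ℝ)| * (8 * Dk2 * DL * (h : ℝ) ^ 2 * S) + (h : ℝ) ^ 2 * S) =
        (|(w : ℝ)| + 8 * Dk1 * DL * |(w : ℝ)| + 8 * Dk2 * DL) * ((h : ℝ) ^ 2 * S) := by ring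
    have e2 : 0 ≤ (|(w : ℝ)| + 8 * Dk1 * DL * |(w : ℝ)| + 8 * Dk2 * DL) * ((h : ℝ) ^ 2 * S) := by positivity
    linarith
  linarith

/-- the archimedean bound, with an exponential neighbourhood -/
def AMainE : Prop := ∀ (σ : ℕ), (σ = 1 ∨ σ = 3) → ∀ᶠ h : ℕ in atTop, ∀ w u v : ℚ,
  |(u : ℝ) - thX σ w| ≤ Real.exp (-(45 / 2 * h)) →
  |(v : ℝ) - thY σ w| ≤ Real.exp (-(45 / 2 * h)) →
  |((DET h σ w u v : ℚ) : ℝ)| ≤ Real.exp (-(9 * (h : ℝ) ^ 2 * Real.log h) - 1669 / 100 * (h : ℝ) ^ 2 +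
    3 * h * Real.log (1 + |(w : ℝ)|))

/-- the archimedean bound -/
theorem AMainE_of' (hE : EntryE) (hA5 : A5s) : AMainE := by
  intro σ hσ
  obtain ⟨E, hE0, hE⟩ := hE σ hσ
  have hlog : ∀ᶠ h : ℕ in atTop, 3 * Real.log (3 * (h : ℝ)) + 3 * Real.log (E * (h : ℝ) ^ 2) ≤ (h : ℝ) / 100 := by
    have t1 : Tendsto (fun h : ℕ => (h : ℝ)) atTop atTop := tendsto_natCast_atTop_atTop
    have o1 := (Real.isLittleO_log_id_atTop.comp_tendsto t1).def (show (0 : ℝ) < 1 / 1800 by norm_num)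
    have t2 := t1.eventually_ge_atTop (200 * (3 * Real.log 3 + 3 * Real.log E))
    filter_upwards [o1, t2, eventually_ge_atTop 1] with h o1 t2 h1
    have h1' : (1 : ℝ) ≤ h := by exact_mod_cast h1
    simp only [Function.comp, id, Real.norm_eq_abs] at o1
    rw [abs_of_nonneg (Real.log_nonneg h1'), abs_of_nonneg (by linarith : (0 : ℝ) ≤ h)] at o1
    rw [Real.log_mul (by norm_num) (by linarith), Real.log_mul hE0.ne' (by positivity), Real.log_pow]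
    push_cast
    linarith
  filter_upwards [hE, hA5, hlog, eventually_ge_atTop 3] with h hE hA5 hlog hh
  obtain ⟨haa, hE⟩ := hE
  intro w u v hu hv
  have hE := hE w u v hu hv
  set Ew : ℝ := E * (1 + |(w : ℝ)|) with hEw
  have hw1 : (0 : ℝ) < 1 + |(w : ℝ)| := by positivity
  have hEw0 : 0 < Ew := by rw [hEw]; positivity
  have hh3 : (3 : ℝ) ≤ h := by exact_mod_cast hh
  have hdet := Pool.Agent.H336R2.HD.A1_det_monic (NL h σ w u v) (3 * h) (PJ h σ) (fun i _ => PJ_monic h σ i)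
  have e1 : ((DET h σ w u v : ℚ) : ℝ) =
      (Matrix.of fun i j : Fin (3 * h) => ((NL h σ w u v (PJ h σ i * PJ h σ j) : ℚ) : ℝ)).det := by
    unfold DET
    rw [← hdet]
    have := RingHom.map_det (Rat.castHom ℝ) (Matrix.of fun i j : Fin (3 * h) => NL h σ w u v (PJ h σ i * PJ h σ j))
    rw [Rat.coe_castHom] at this
    rw [this]
    congr 1
  rw [e1]
  have hb := Pool.Agent.H336R2.HD.A4_abs_det (3 * h)
    (Matrix.of fun i j : Fin (3 * h) => ((NL h σ w u v (PJ h σ i * PJ h σ j) : ℚ) : ℝ))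
    (fun j => if j < 3 * h then Ew * (h : ℝ) ^ 2 * aa h j else 0)
    (fun j => by
      split_ifs with hj
      · have := haa j hj
        positivity
      · exact le_refl _)
    (fun i j => by
      simp only [Matrix.of_apply, i.2, j.2, if_true]
      have h1 := hE i i.2 j j.2
      have h2 : 0 ≤ aa h i * aa h j := (mul_pos (haa i i.2) (haa j j.2)).le
      calc |((NL h σ w u v (PJ h σ i * PJ h σ j) : ℚ) : ℝ)| ^ 2
          ≤ (Ew * (h : ℝ) ^ 2 * Real.sqrt (aa h i * aa h j)) ^ 2 := pow_le_pow_left₀ (abs_nonneg _) h1 2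
        _ = (Ew * (h : ℝ) ^ 2) ^ 2 * (aa h i * aa h j) := by rw [mul_pow, Real.sq_sqrt h2]
        _ = _ := by ring)
  refine hb.trans ?_
  have e2 : ∏ j ∈ Finset.range (3 * h), (if j < 3 * h then Ew * (h : ℝ) ^ 2 * aa h j else 0) =
      (Ew * (h : ℝ) ^ 2) ^ (3 * h) * ∏ j ∈ Finset.range (3 * h), aa h j := by
    rw [← Finset.card_range (3 * h), ← Finset.prod_const, Finset.card_range, ← Finset.prod_mul_distrib]
    apply Finset.prod_congr rfl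
    intro j hj
    rw [if_pos (Finset.mem_range.1 hj)]
  rw [e2]
  have hEp : 0 < Ew * (h : ℝ) ^ 2 := by positivity
  have e3 : ∏ j ∈ Finset.range (3 * h), aa h j = Real.exp (∑ j ∈ Finset.range (3 * h), Real.log (aa h j)) := by
    rw [Real.exp_sum]
    apply Finset.prod_congr rfl
    intro j hj
    rw [Real.exp_log (haa j (Finset.mem_range.1 hj))]
  have e4 : (Ew * (h : ℝ) ^ 2) ^ (3 * h) = Real.exp (3 * h * Real.log (Ew * (h : ℝ) ^ 2)) := by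
    rw [← Real.rpow_natCast, Real.rpow_def_of_pos hEp]
    congr 1
    push_cast
    ring
  have e5 : (((3 * h).factorial : ℕ) : ℝ) ≤ Real.exp (3 * h * Real.log (3 * (h : ℝ))) := by
    have h1 : (((3 * h).factorial : ℕ) : ℝ) ≤ ((3 * h : ℕ) : ℝ) ^ (3 * h) := by
      exact_mod_cast Nat.factorial_le_pow (3 * h)
    have h2 : ((3 * h : ℕ) : ℝ) ^ (3 * h) = Real.exp (3 * h * Real.log (3 * (h : ℝ))) := by
      rw [← Real.rpow_natCast, Real.rpow_def_of_pos (by positivity)]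
      congr 1
      push_cast
      ring
    rw [h2] at h1
    exact h1
  rw [e3, e4]
  calc (((3 * h).factorial : ℕ) : ℝ) * (Real.exp (3 * h * Real.log (Ew * (h : ℝ) ^ 2)) *
        Real.exp (∑ j ∈ Finset.range (3 * h), Real.log (aa h j)))
      ≤ Real.exp (3 * h * Real.log (3 * (h : ℝ))) * (Real.exp (3 * h * Real.log (Ew * (h : ℝ) ^ 2)) *
        Real.exp (∑ j ∈ Finset.range (3 * h), Real.log (aa h j))) :=
        mul_le_mul_of_nonneg_right e5 (by positivity)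
    _ = Real.exp (3 * h * Real.log (3 * (h : ℝ)) + (3 * h * Real.log (Ew * (h : ℝ) ^ 2) +
        ∑ j ∈ Finset.range (3 * h), Real.log (aa h j))) := by
        rw [Real.exp_add, Real.exp_add]
    _ ≤ Real.exp (-(9 * (h : ℝ) ^ 2 * Real.log h) - 1669 / 100 * (h : ℝ) ^ 2 +
          3 * h * Real.log (1 + |(w : ℝ)|)) := by
        apply Real.exp_le_exp.2
        have h7 : Real.log (Ew * (h : ℝ) ^ 2) = Real.log (E * (h : ℝ) ^ 2) + Real.log (1 + |(w : ℝ)|) := by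
          rw [← Real.log_mul (by positivity) hw1.ne']
          congr 1
          rw [hEw]; ring
        rw [h7]
        have h6 := mul_le_mul_of_nonneg_left hlog (by linarith : (0 : ℝ) ≤ h)
        nlinarith

theorem AMainE_of (hA1 : A1s) (hA2 : A2s) (hA3 : A3s) (hA4 : A4s) (hz : A4z) (hA5 : A5s) : AMainE :=
  AMainE_of' (EntryE_of hA1 (RowL_of hA2 hA3 hA4) hz) hA5

end

end Pool.Agent.TH957.PB
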