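import Pool.Agent.W34.GB.Main

/-!
# Non-vanishing of the determinants for Catalan's constant, uniformly in the parameter `w`

Adapted from `Pool/Agent/W918/GZ/N6.lean`.
-/

set_option linter.all false

open Polynomial Pool.Agent.H337R2 Filter Topology

namespace Pool.Agent.TH957.PB

open Pool.Agent.W34.GB Pool.Agent.W918.GZ

noncomputable section

lemma fl_lin (m0 a b c : ℕ) (w : ℚ) (i j : ℕ) : fl m0 a b c w i j =
    fl m0 a b c 0 i j + w * (fl m0 a b c 1 i j - fl m0 a b c 0 i j) := by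
  unfold fl
  ring

lemma Fm_lin (m0 a b c : ℕ) (w : ℚ) (e : ℕ) : Fm m0 a b c w e =
    Fm m0 a b c 0 e + w * (Fm m0 a b c 1 e - Fm m0 a b c 0 e) := by
  unfold Fm
  rw [Finset.sum_range_succ, Finset.sum_range_one, Finset.sum_range_succ, Finset.sum_range_one,
    Finset.sum_range_succ, Finset.sum_range_one]
  rw [fl_lin m0 a b c w 3 0, fl_lin m0 a b c w 2 0, fl_lin m0 a b c w 1 0,
    fl_lin m0 a b c w 3 1, fl_lin m0 a b c w 2 1, fl_lin m0 a b c w 1 1]
  ring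

/-- the local configurations for `w ≠ -3` -/
def CU : Finset (ℕ × ℕ × ℕ × ℕ) := {(1, 0, 0, 0), (1, 1, 0, 0), (1, 1, 1, 0), (1, 1, 1, 1)}

theorem NVU_of (hN3 : N3s) (hN4 : N4s) : ∃ p0 : ℕ, ∀ p : ℕ, p0 ≤ p → p.Prime → ∀ σ : ℕ, (σ = 1 ∨ σ = 3) →
    p % 4 = σ → ∀ w u v : ℚ, w ≠ -3 → padicNorm p w ≤ 1 → padicNorm p u ≤ 1 → padicNorm p v ≤ 1 →
    (∀ x ∈ CU, padicNorm p (Dl x.1 x.2.1 x.2.2.1 x.2.2.2 w) = 1) → DET p σ w u v ≠ 0 := by
  obtain ⟨p2, hp2⟩ := int_fin (CU ×ˢ Finset.range 5) (fun x => Fm x.1.1 x.1.2.1 x.1.2.2.1 x.1.2.2.2 0 x.2)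
  obtain ⟨p3, hp3⟩ := int_fin (CU ×ˢ Finset.range 5) (fun x => Fm x.1.1 x.1.2.1 x.1.2.2.1 x.1.2.2.2 1 x.2)
  refine ⟨p2 + p3 + 50, fun p hp hpp σ hσ hc w u v hw3 hwp hup hvp hDl => ?_⟩
  have : Fact p.Prime := ⟨hpp⟩
  have hp50 : 50 ≤ p := by omega
  have hCf : Cf w = CU := by unfold Cf CU; rw [if_neg hw3]
  have hFm : ∀ x ∈ CU, ∀ e < 5, padicNorm p (Fm x.1 x.2.1 x.2.2.1 x.2.2.2 w e) ≤ 1 := by
    intro x hx e he
    have i0 := hp2 (x, e) (Finset.mem_product.2 ⟨hx, Finset.mem_range.2 he⟩) p (by omega) hpp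
    have i1 := hp3 (x, e) (Finset.mem_product.2 ⟨hx, Finset.mem_range.2 he⟩) p (by omega) hpp
    simp only at i0 i1
    rw [Fm_lin]
    refine (padicNorm.nonarchimedean).trans (max_le i0 ?_)
    rw [padicNorm.mul]
    refine mul_le_one₀ hwp (padicNorm.nonneg _) ?_
    exact (padicNorm.sub).trans (max_le i1 i0)
  -- choose the units
  have hw : ∀ r : Fin p, ∃ c : ℚ, padicNorm p c = 1 ∧ ∀ e : ℕ, e ≤ 4 →
      padicNorm p ((p : ℚ) ^ (6 - (e : ℤ)) * NL p σ w u v ((X + C ((r.1 + 1 : ℕ) : ℚ)) ^ e * oth p (r.1 + 1) 6) -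
        c * Fm (mm σ p) (d1 σ p (r.1 + 1)) (d2 p (r.1 + 1)) (d3 p (r.1 + 1)) w e) ≤ (p : ℚ)⁻¹ := by
    intro r
    have hr := r.2
    exact hN3 p hp50 σ hσ w u v hwp hup hvp (r.1 + 1) (by omega) (by omega)
  choose cw hw1 hw2 using hw
  have hcf : ∀ r : Fin p, (mm σ p, d1 σ p (r.1 + 1), d2 p (r.1 + 1), d3 p (r.1 + 1)) ∈ Cf w := by
    intro r
    have hr := r.2
    exact cf_mem σ w hσ p hpp hp50 (by rw [if_neg hw3]; exact hc) (r.1 + 1) (by omega) (by omega)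
  have hcfU : ∀ r : Fin p, (mm σ p, d1 σ p (r.1 + 1), d2 p (r.1 + 1), d3 p (r.1 + 1)) ∈ CU := by
    intro r
    rw [← hCf]
    exact hcf r
  -- the Gram matrix
  set G : Matrix (Fin 3 × Fin p) (Fin 3 × Fin p) ℚ :=
    Matrix.of fun a b => NL p σ w u v (H6_P p (a.2.1 + 1) a.1.1 * H6_P p (b.2.1 + 1) b.1.1) with hG
  have key : G.det ≠ 0 := by
    set c : Fin 3 × Fin p → ℚ := fun a => (p : ℚ) ^ (3 - (a.1.1 : ℤ)) with hc
    set M : Matrix (Fin 3 × Fin p) (Fin 3 × Fin p) ℚ :=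
      Matrix.of fun a b => c a * c b * G a b with hM
    set Bl : Fin p → Matrix (Fin 3) (Fin 3) ℚ := fun r =>
      Matrix.of fun l l' => cw r * Fm (mm σ p) (d1 σ p (r.1 + 1)) (d2 p (r.1 + 1)) (d3 p (r.1 + 1)) w (l.1 + l'.1)
      with hBl
    have hp0 : (p : ℚ) ≠ 0 := by exact_mod_cast hpp.ne_zero
    have hcc : ∀ a b : Fin 3 × Fin p, c a * c b = (p : ℚ) ^ (6 - (a.1.1 : ℤ) - (b.1.1 : ℤ)) := by
      intro a b
      simp only [hc]
      rw [← zpow_add₀ hp0]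
      congr 1
      ring
    have hM0 : M.det ≠ 0 := by
      apply Pool.Agent.H336R2.HD.A6_det_congr p M (Matrix.blockDiagonal Bl)
      · intro a b
        rw [Matrix.blockDiagonal_apply]
        split_ifs with hab
        · simp only [hBl, Matrix.of_apply]
          have ha := a.1.2
          have hb := b.1.2
          have h1 : padicNorm p (Fm (mm σ p) (d1 σ p (a.2.1 + 1)) (d2 p (a.2.1 + 1)) (d3 p (a.2.1 + 1)) w
              (a.1.1 + b.1.1)) ≤ 1 :=
            hFm _ (hcfU a.2) _ (by omega)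
          rw [padicNorm.mul, hw1, one_mul]
          exact h1
        · simp
      · intro a b
        rw [Matrix.blockDiagonal_apply]
        have ha := a.1.2
        have hb := b.1.2
        have ha2 := a.2.2
        have hb2 := b.2.2
        have hMab : M a b = (p : ℚ) ^ (6 - (a.1.1 : ℤ) - (b.1.1 : ℤ)) *
            NL p σ w u v (H6_P p (a.2.1 + 1) a.1.1 * H6_P p (b.2.1 + 1) b.1.1) := by
          simp only [hM, hG, Matrix.of_apply]
          rw [hcc]
        split_ifs with hab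
        · rw [hMab, ← hab, H6_P_mul]
          have h1 := hw2 a.2 (a.1.1 + b.1.1) (by omega)
          have h2 : (6 - ((a.1.1 + b.1.1 : ℕ) : ℤ)) = 6 - (a.1.1 : ℤ) - (b.1.1 : ℤ) := by
            push_cast
            ring
          rw [h2] at h1
          exact h1
        · rw [hMab, sub_zero]
          apply hN4 p hp50 σ hσ w u v hwp hup hvp (a.2.1 + 1) (b.2.1 + 1) a.1.1 b.1.1 (by omega) (by omega)
            (by omega) (by omega) _ ha hb
          intro h1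
          apply hab
          ext
          omega
      · rw [Matrix.det_blockDiagonal]
        have hprod : ∀ (n : ℕ) (f : Fin n → ℚ), (∀ i, padicNorm p (f i) = 1) → padicNorm p (∏ i, f i) = 1 := by
          intro n f hf
          have h4 : padicNorm p (∏ i, f i) = ∏ i, padicNorm p (f i) := by
            exact map_prod (⟨⟨fun x => padicNorm p x, padicNorm.one⟩, fun x y => padicNorm.mul x y⟩ :
              ℚ →* ℚ) f Finset.univ
          rw [h4]
          exact Finset.prod_eq_one fun i _ => hf i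
        have hdet : ∀ r : Fin p, padicNorm p (Bl r).det = 1 := by
          intro r
          have h1 : Bl r = Matrix.of fun l l' => (cw r) *
              (Matrix.of fun l l' : Fin 3 => Fm (mm σ p) (d1 σ p (r.1 + 1)) (d2 p (r.1 + 1)) (d3 p (r.1 + 1)) w
                (l.1 + l'.1)) l l' := by
            ext l l'
            simp only [hBl, Matrix.of_apply]
          have h2 := hDl _ (hcfU r)
          rw [h1, Matrix.det_mul_column (fun _ => cw r), padicNorm.mul, hprod 3 _ (fun _ => hw1 r), one_mul]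
          exact h2
        exact hprod p _ hdet
    intro h0
    apply hM0
    rw [hM, H6_det_scale, h0, mul_zero, mul_zero]
  -- conclusion
  have hcard : Fintype.card (Fin 3 × Fin p) = Fintype.card (Fin (3 * p)) := by
    simp only [Fintype.card_prod, Fintype.card_fin]
  obtain ⟨e⟩ := Fintype.card_eq.1 hcard
  unfold DET
  apply Pool.Agent.H336R2.HD.A2_gram_ne (NL p σ w u v) (3 * p) e (fun a => H6_P p (a.2.1 + 1) a.1.1)
  · intro a
    have ha := a.1.2
    have ha2 := a.2.2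
    exact H6_P_natDegree p _ _ (by omega) (by omega) ha
  · exact key


theorem nVU : ∃ p0 : ℕ, ∀ p : ℕ, p0 ≤ p → p.Prime → ∀ σ : ℕ, (σ = 1 ∨ σ = 3) →
    p % 4 = σ → ∀ w u v : ℚ, w ≠ -3 → padicNorm p w ≤ 1 → padicNorm p u ≤ 1 → padicNorm p v ≤ 1 →
    (∀ x ∈ CU, padicNorm p (Dl x.1 x.2.1 x.2.2.1 x.2.2.2 w) = 1) → DET p σ w u v ≠ 0 :=
  NVU_of (Pool.Agent.W346.GZ.N3_of Pool.Agent.W346.GZ.n1s Pool.Agent.W397.GZ.n2 Pool.Agent.W397.GZ.n2b)
    (Pool.Agent.W346.GZ.N4_of Pool.Agent.W346.GZ.n1s Pool.Agent.W397.GZ.n2b)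

/-! ### the local determinants as integers -/

def N1 (n d : ℤ) : ℤ := 39897 * d ^ 3 + 15993 * (n * d ^ 2) + 2483 * (n ^ 2 * d) + (-5) * n ^ 3
def N2 (n d : ℤ) : ℤ := 26930475 * d ^ 3 + 19170867 * (n * d ^ 2) + 4058809 * (n ^ 2 * d) + 293625 * n ^ 3
def N3 (n d : ℤ) : ℤ := 45160821 * d ^ 3 + 27645948 * (n * d ^ 2) + 5958711 * (n ^ 2 * d) + 424000 * n ^ 3

/-- the number whose prime factors are to be avoided -/
def Gn (n d : ℤ) : ℤ := d * (n + 3 * d) * N1 n d * N2 n d * N3 n d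

lemma Dl_vals (n d : ℤ) (hd : d ≠ 0) :
    Dl 1 0 0 0 ((n : ℚ) / d) = (((n + 3 * d) : ℤ) : ℚ) ^ 3 / (-1 * (d : ℚ) ^ 3) ∧
    Dl 1 1 0 0 ((n : ℚ) / d) = ((N1 n d : ℤ) : ℚ) / (5 * (d : ℚ) ^ 3) ∧
    Dl 1 1 1 0 ((n : ℚ) / d) = ((N2 n d : ℤ) : ℚ) / (3375 * (d : ℚ) ^ 3) ∧
    Dl 1 1 1 1 ((n : ℚ) / d) = ((N3 n d : ℤ) : ℚ) / (6750 * (d : ℚ) ^ 3) := by
  have hd' : (d : ℚ) ≠ 0 := by exact_mod_cast hd
  refine ⟨?_, ?_, ?_, ?_⟩
  · rw [Pool.Agent.W762.GZ.D1000]
    push_cast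
    field_simp
    try ring
  · rw [Pool.Agent.W762.GZ.D1100]
    unfold N1
    push_cast
    field_simp
    try ring
  · rw [Pool.Agent.W762.GZ.D1110]
    unfold N2
    push_cast
    field_simp
    try ring
  · rw [Pool.Agent.W762.GZ.D1111]
    unfold N3
    push_cast
    field_simp
    try ring

lemma Gn_ne (n d : ℤ) (hd : d ≠ 0) (h : n + 3 * d ≠ 0) : Gn n d ≠ 0 := by
  have hd' : (d : ℚ) ≠ 0 := by exact_mod_cast hd
  have hw : (n : ℚ) / d ≠ -3 := by
    intro h1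
    apply h
    rw [div_eq_iff hd'] at h1
    have : (n : ℚ) + 3 * d = 0 := by linarith
    exact_mod_cast this
  obtain ⟨a1, a2, a3, a4⟩ := Pool.Agent.W762.GZ.n5.1 _ hw
  obtain ⟨b1, b2, b3, b4⟩ := Dl_vals n d hd
  have h1 : N1 n d ≠ 0 := by
    intro h0
    apply a2
    rw [b2, h0]
    simp
  have h2 : N2 n d ≠ 0 := by
    intro h0
    apply a3
    rw [b3, h0]
    simp
  have h3 : N3 n d ≠ 0 := by
    intro h0
    apply a4
    rw [b4, h0]
    simp
  unfold Gn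
  exact mul_ne_zero (mul_ne_zero (mul_ne_zero (mul_ne_zero hd h) h1) h2) h3

lemma cubic_le (a b c e n d M : ℤ) (ha : 0 ≤ a) (hb : 0 ≤ b) (hc : 0 ≤ c) (hn : |n| ≤ M) (hd : |d| ≤ M) :
    |a * d ^ 3 + b * (n * d ^ 2) + c * (n ^ 2 * d) + e * n ^ 3| ≤ (a + b + c + |e|) * M ^ 3 := by
  have hM : 0 ≤ M := (abs_nonneg _).trans hn
  have t1 : |a * d ^ 3| ≤ a * M ^ 3 := by
    rw [abs_mul, abs_of_nonneg ha, abs_pow]
    exact mul_le_mul_of_nonneg_left (pow_le_pow_left₀ (abs_nonneg _) hd 3) ha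
  have t2 : |b * (n * d ^ 2)| ≤ b * M ^ 3 := by
    rw [abs_mul, abs_of_nonneg hb, abs_mul, abs_pow]
    apply mul_le_mul_of_nonneg_left _ hb
    calc |n| * |d| ^ 2 ≤ M * M ^ 2 := mul_le_mul hn (pow_le_pow_left₀ (abs_nonneg _) hd 2) (by positivity) hM
      _ = M ^ 3 := by ring
  have t3 : |c * (n ^ 2 * d)| ≤ c * M ^ 3 := by
    rw [abs_mul, abs_of_nonneg hc, abs_mul, abs_pow]
    apply mul_le_mul_of_nonneg_left _ hc
    calc |n| ^ 2 * |d| ≤ M ^ 2 * M := mul_le_mul (pow_le_pow_left₀ (abs_nonneg _) hn 2) hd (abs_nonneg _) (by positivity)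
      _ = M ^ 3 := by ring
  have t4 : |e * n ^ 3| ≤ |e| * M ^ 3 := by
    rw [abs_mul, abs_pow]
    exact mul_le_mul_of_nonneg_left (pow_le_pow_left₀ (abs_nonneg _) hn 3) (abs_nonneg _)
  have s1 := abs_add_le (a * d ^ 3 + b * (n * d ^ 2) + c * (n ^ 2 * d)) (e * n ^ 3)
  have s2 := abs_add_le (a * d ^ 3 + b * (n * d ^ 2)) (c * (n ^ 2 * d))
  have s3 := abs_add_le (a * d ^ 3) (b * (n * d ^ 2))
  linarith

lemma Gn_le (n d M : ℤ) (hn : |n| ≤ M) (hd : |d| ≤ M) : |Gn n d| ≤ 10 ^ 21 * M ^ 11 := by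
  have hM : 0 ≤ M := (abs_nonneg _).trans hn
  have h0 : |n + 3 * d| ≤ 4 * M := by
    have := abs_add_le n (3 * d)
    rw [abs_mul, show |(3 : ℤ)| = 3 from rfl] at this
    linarith
  have h1 : |N1 n d| ≤ 58378 * M ^ 3 := by
    have := cubic_le 39897 15993 2483 (-5) n d M (by norm_num) (by norm_num) (by norm_num) hn hd
    unfold N1
    norm_num at this ⊢
    exact this
  have h2 : |N2 n d| ≤ 50453776 * M ^ 3 := by
    have := cubic_le 26930475 19170867 4058809 293625 n d M (by norm_num) (by norm_num) (by norm_num) hn hd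
    unfold N2
    norm_num at this ⊢
    exact this
  have h3 : |N3 n d| ≤ 79189480 * M ^ 3 := by
    have := cubic_le 45160821 27645948 5958711 424000 n d M (by norm_num) (by norm_num) (by norm_num) hn hd
    unfold N3
    norm_num at this ⊢
    exact this
  unfold Gn
  rw [abs_mul, abs_mul, abs_mul, abs_mul]
  calc |d| * |n + 3 * d| * |N1 n d| * |N2 n d| * |N3 n d|
      ≤ M * (4 * M) * (58378 * M ^ 3) * (50453776 * M ^ 3) * (79189480 * M ^ 3) := by
        gcongr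
    _ = (4 * 58378 * 50453776 * 79189480) * M ^ 11 := by ring
    _ ≤ _ := mul_le_mul_of_nonneg_right (by norm_num) (by positivity)

lemma units {p : ℕ} [Fact p.Prime] (hp : 50 ≤ p) (n d : ℤ) (hG : ¬ (p : ℤ) ∣ Gn n d) :
    padicNorm p (d : ℚ) = 1 ∧ padicNorm p ((n : ℚ) / d) ≤ 1 ∧ (n : ℚ) / d ≠ -3 ∧
    ∀ x ∈ CU, padicNorm p (Dl x.1 x.2.1 x.2.2.1 x.2.2.2 ((n : ℚ) / d)) = 1 := by
  have hpp : p.Prime := Fact.out
  have hd : ¬ (p : ℤ) ∣ d := fun h => hG (by unfold Gn; exact dvd_mul_of_dvd_left (dvd_mul_of_dvd_left (dvd_mul_of_dvd_left (dvd_mul_of_dvd_left h _) _) _) _)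
  have h0 : ¬ (p : ℤ) ∣ n + 3 * d := fun h => hG (by unfold Gn; exact dvd_mul_of_dvd_left (dvd_mul_of_dvd_left (dvd_mul_of_dvd_left (dvd_mul_of_dvd_right h _) _) _) _)
  have h1 : ¬ (p : ℤ) ∣ N1 n d := fun h => hG (by unfold Gn; exact dvd_mul_of_dvd_left (dvd_mul_of_dvd_left (dvd_mul_of_dvd_right h _) _) _)
  have h2 : ¬ (p : ℤ) ∣ N2 n d := fun h => hG (by unfold Gn; exact dvd_mul_of_dvd_left (dvd_mul_of_dvd_right h _) _)
  have h3 : ¬ (p : ℤ) ∣ N3 n d := fun h => hG (by unfold Gn; exact dvd_mul_of_dvd_right h _)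
  have u0 : padicNorm p (d : ℚ) = 1 := (padicNorm.int_eq_one_iff d).2 hd
  have hd0 : d ≠ 0 := by rintro rfl; exact hd (dvd_zero _)
  have hd' : (d : ℚ) ≠ 0 := by exact_mod_cast hd0
  have hnat : ∀ m : ℕ, m ≠ 0 → (∀ q : ℕ, q.Prime → q ∣ m → q < 50) → padicNorm p (m : ℚ) = 1 := by
    intro m _ hm
    rw [padicNorm.nat_eq_one_iff]
    intro h
    have := hm p hpp h
    omega
  have k5 : padicNorm p (5 : ℚ) = 1 := by
    have := hnat 5 (by norm_num) (fun q hq h => by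
      have := Nat.le_of_dvd (by norm_num) h; omega)
    exact_mod_cast this
  have k3375 : padicNorm p (3375 : ℚ) = 1 := by
    have := hnat 3375 (by norm_num) (fun q hq h => by
      have e : (3375 : ℕ) = 15 ^ 3 := by norm_num
      rw [e] at h
      have := hq.dvd_of_dvd_pow h
      have := Nat.le_of_dvd (by norm_num) this
      omega)
    exact_mod_cast this
  have k6750 : padicNorm p (6750 : ℚ) = 1 := by
    have := hnat 6750 (by norm_num) (fun q hq h => by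
      have e : (6750 : ℕ) = 2 * 15 ^ 3 := by norm_num
      rw [e] at h
      rcases (Nat.Prime.dvd_mul hq).1 h with h | h
      · have := Nat.le_of_dvd (by norm_num) h; omega
      · have := hq.dvd_of_dvd_pow h
        have := Nat.le_of_dvd (by norm_num) this
        omega)
    exact_mod_cast this
  have hpow : ∀ x : ℚ, padicNorm p x = 1 → padicNorm p (x ^ 3) = 1 := by
    intro x hx
    rw [pow_succ, pow_succ, pow_one, padicNorm.mul, padicNorm.mul, hx]
    norm_num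
  obtain ⟨b1, b2, b3, b4⟩ := Dl_vals n d hd0
  refine ⟨u0, ?_, ?_, ?_⟩
  · rw [padicNorm.div, u0, div_one]
    exact padicNorm.of_int n
  · intro h
    rw [div_eq_iff hd'] at h
    have : (n : ℚ) + 3 * d = 0 := by linarith
    have h4 : n + 3 * d = 0 := by exact_mod_cast this
    rw [h4] at h0
    exact h0 (dvd_zero _)
  · intro x hx
    unfold CU at hx
    simp only [Finset.mem_insert, Finset.mem_singleton] at hx
    rcases hx with rfl | rfl | rfl | rfl
    · show padicNorm p (Dl 1 0 0 0 _) = 1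
      rw [b1, padicNorm.div, hpow _ ((padicNorm.int_eq_one_iff _).2 h0), neg_one_mul, padicNorm.neg, hpow _ u0]
      norm_num
    · show padicNorm p (Dl 1 1 0 0 _) = 1
      rw [b2, padicNorm.div, (padicNorm.int_eq_one_iff _).2 h1, padicNorm.mul, k5, hpow _ u0]
      norm_num
    · show padicNorm p (Dl 1 1 1 0 _) = 1
      rw [b3, padicNorm.div, (padicNorm.int_eq_one_iff _).2 h2, padicNorm.mul, k3375, hpow _ u0]
      norm_num
    · show padicNorm p (Dl 1 1 1 1 _) = 1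
      rw [b4, padicNorm.div, (padicNorm.int_eq_one_iff _).2 h3, padicNorm.mul, k6750, hpow _ u0]
      norm_num

end

end Pool.Agent.TH957.PB
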