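import Pool.Agent.TH957.PB.Arch
import Pool.Agent.TH957.PB.NonV
import Pool.Agent.TH957.ZM.Prime

/-!
# A polynomial simultaneous measure for the pencil of pairs attached to Catalan's constant
-/

open Polynomial Pool.Agent.H337R2 Filter Topology MeasureTheory

namespace Pool.Agent.TH957.PB

open Pool.Agent.W34.GB

noncomputable section

set_option autoImplicit false

theorem aMainE : AMainE :=
  AMainE_of Pool.Agent.W196.GZ.t_A1 Pool.Agent.W813.GZ.A2 Pool.Agent.W108.GZ.t_A3s Pool.Agent.W748.GZ.a4s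
    Pool.Agent.W748.GZ.a4z Pool.Agent.W290.GZ.a5

/-- the contradiction for one prime `h` -/
theorem contraU {h σ Q : ℕ} {w u v : ℚ} (hh : 0 < h) (hQ : UInt Q w u v) (hD : DET h σ w u v ≠ 0)
    (hA : |((DET h σ w u v : ℚ) : ℝ)| ≤
      Real.exp (-(9 * (h : ℝ) ^ 2 * Real.log h) - 1669 / 100 * (h : ℝ) ^ 2 + 3 * h * Real.log (1 + |(w : ℝ)|)))
    (hP : ∃ (S : Finset ℕ) (B : ℕ → ℝ), (∀ p ∈ S, p.Prime ∧ 0 < B p) ∧
      (∀ p ∈ S, ((padicNorm p ((Q : ℚ) ^ (3 * h) * DET h σ w u v) : ℚ) : ℝ) ≤ B p) ∧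
      (∀ p, p.Prime → p ∉ S → padicNorm p ((Q : ℚ) ^ (3 * h) * DET h σ w u v) ≤ 1) ∧
      ∑ p ∈ S, Real.log (B p) ≤ 9 * (h : ℝ) ^ 2 * Real.log h + 83 / 5 * (h : ℝ) ^ 2)
    (hlog : 3 * (Real.log Q + Real.log (1 + |(w : ℝ)|)) < 9 / 100 * h) : False := by
  obtain ⟨S, B, hS1, hS2, hS3, hS4⟩ := hP
  have hQ0 : 0 < Q := hQ.1
  have hQr : (0 : ℝ) < Q := by exact_mod_cast hQ0
  have hhr : (0 : ℝ) < h := by exact_mod_cast hh
  obtain ⟨z, hz⟩ : ∃ z : ℚ, z = ((Q : ℕ) : ℚ) ^ (3 * h) * DET h σ w u v := ⟨_, rfl⟩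
  have hz0 : z ≠ 0 := by
    rw [hz]
    exact mul_ne_zero (pow_ne_zero _ (by exact_mod_cast hQ0.ne')) hD
  have hpf := Pool.Agent.H336R2.HD.A5_prod_formula z hz0 S (fun p hp => (hS1 p hp).1) B
    (fun p hp => by rw [hz]; exact hS2 p hp) (fun p hp hpS => by rw [hz]; exact hS3 p hp hpS)
  have hprodpos : 0 < ∏ p ∈ S, B p := Finset.prod_pos fun p hp => (hS1 p hp).2
  have hzabs : 0 < |(z : ℝ)| := abs_pos.2 (by exact_mod_cast hz0)
  have hl := Real.log_nonneg hpf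
  rw [Real.log_mul hzabs.ne' hprodpos.ne', Real.log_prod (fun p hp => (hS1 p hp).2.ne')] at hl
  have hDpos : 0 < |((DET h σ w u v : ℚ) : ℝ)| := abs_pos.2 (by exact_mod_cast hD)
  have hzlog : Real.log |(z : ℝ)| = (3 * h : ℝ) * Real.log Q +
      Real.log |((DET h σ w u v : ℚ) : ℝ)| := by
    rw [hz]
    push_cast
    rw [abs_mul, Real.log_mul (by positivity) hDpos.ne', abs_of_pos (by positivity), Real.log_pow]
    push_cast
    ring
  have hDlog : Real.log |((DET h σ w u v : ℚ) : ℝ)| ≤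
      -(9 * (h : ℝ) ^ 2 * Real.log h) - 1669 / 100 * (h : ℝ) ^ 2 + 3 * h * Real.log (1 + |(w : ℝ)|) := by
    have := Real.log_le_log hDpos hA
    rwa [Real.log_exp] at this
  have hfin := mul_lt_mul_of_pos_left hlog hhr
  rw [hzlog] at hl
  nlinarith

/-- the selection of the prime and the contradiction -/
theorem core (σ a0 : ℕ) (hσ : σ = 1 ∨ σ = 3) (ha0 : a0 = 1 ∨ a0 = 3) (N1 : ℕ) :
    ∃ N : ℕ, N1 ≤ N ∧ 10 ≤ N ∧ ∀ L : ℝ, (N : ℝ) ≤ L → ∀ (G Q : ℕ) (w u v : ℚ), 0 < G → Real.log G ≤ 11 * L →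
      UInt Q w u v → Real.log Q + Real.log (1 + |(w : ℝ)|) ≤ 2 * L →
      |(u : ℝ) - thX σ w| ≤ Real.exp (-(1999 * L)) → |(v : ℝ) - thY σ w| ≤ Real.exp (-(1999 * L)) →
      (∀ h : ℕ, h.Prime → N ≤ h → h % 4 = a0 → ¬ h ∣ G → DET h σ w u v ≠ 0) → False := by
  obtain ⟨NA, hA2⟩ := eventually_atTop.1 (aMainE σ hσ)
  obtain ⟨NP, hP2⟩ := eventually_atTop.1 (pMain σ hσ)
  have hunit : IsUnit ((a0 : ℕ) : ZMod 4) := by
    rcases ha0 with rfl | rfl
    · exact (by decide : IsUnit ((1 : ℕ) : ZMod 4))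
    · exact (by decide : IsUnit ((3 : ℕ) : ZMod 4))
  have htot : ((Nat.totient 4 : ℕ) : ℝ) = 2 := by
    have : Nat.totient 4 = 2 := by decide
    rw [this]; norm_num
  obtain ⟨X0, hX0⟩ := eventually_atTop.1 (ZM.exists_prime_cls 4 (by norm_num) ((a0 : ℕ) : ZMod 4) hunit
    (133 / 100) (110 / 667) (by norm_num) (by rw [htot]; norm_num))
  refine ⟨N1 + NA + NP + X0 + 10, by omega, by omega, ?_⟩
  set N : ℕ := N1 + NA + NP + X0 + 10 with hNdef
  intro L hL G Q w u v hG hGL hUI hQL hu hv hDET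
  have hN10 : (10 : ℝ) ≤ N := by exact_mod_cast (by omega : 10 ≤ N)
  have hL0 : 10 ≤ L := by linarith
  set X : ℕ := ⌈667 / 10 * L⌉₊ with hX
  have hX1 : 667 / 10 * L ≤ X := Nat.le_ceil _
  have hX2 : (X : ℝ) < 667 / 10 * L + 1 := Nat.ceil_lt_add_one (by linarith)
  have hXN : N ≤ X := by
    have : (N : ℝ) ≤ X := by linarith
    exact_mod_cast this
  obtain ⟨h, hhp, hhm, hh1, hh2, hh3⟩ := hX0 X (by omega) G hG (by linarith)
  have hhm4 : h % 4 = a0 := by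
    rw [ZMod.natCast_eq_natCast_iff] at hhm
    have h1 : h % 4 = a0 % 4 := hhm
    rcases ha0 with rfl | rfl <;> omega
  have hh0 : 0 < h := hhp.pos
  have hXh : (X : ℝ) ≤ h := by exact_mod_cast hh1.le
  have hexp : Real.exp (-(1999 * L)) ≤ Real.exp (-(45 / 2 * h)) := by
    apply Real.exp_le_exp.2
    have h1 : (h : ℝ) ≤ 133 / 100 * (667 / 10 * L + 1) :=
      hh2.trans (mul_le_mul_of_nonneg_left hX2.le (by norm_num))
    linarith
  exact contraU hh0 hUI (hDET h hhp (by omega) hhm4 hh3)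
    (hA2 h (by omega) w u v (hu.trans hexp) (hv.trans hexp)) (hP2 h (by omega) Q w u v hUI)
    (by linarith)

lemma log_const {x : ℝ} (hx : 0 < x) (n : ℕ) (h : x ≤ 2.7 ^ n) : Real.log x ≤ n := by
  rw [Real.log_le_iff_le_exp hx]
  have h5 : (2.7 : ℝ) ≤ Real.exp 1 := by
    have := Real.exp_one_gt_d9; linarith
  calc x ≤ 2.7 ^ n := h
    _ ≤ Real.exp 1 ^ n := pow_le_pow_left₀ (by norm_num) h5 n
    _ = Real.exp n := by rw [← Real.exp_nat_mul, mul_one]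

lemma natAbs_q (x : ℤ) : ∃ s : ℤ, ((x.natAbs : ℕ) : ℚ) = s * x := by
  have h0 : ((x.natAbs : ℕ) : ℚ) = (((x.natAbs : ℕ) : ℤ) : ℚ) := (Int.cast_natCast _).symm
  rcases le_total 0 x with h | h
  · refine ⟨1, ?_⟩
    rw [h0, Int.natAbs_of_nonneg h]
    push_cast
    ring
  · refine ⟨-1, ?_⟩
    rw [h0, Int.ofNat_natAbs_of_nonpos h]
    push_cast
    ring

lemma uint_q (x y : ℤ) (hx : x ≠ 0) : ∃ z : ℤ, ((x.natAbs : ℕ) : ℚ) * ((y : ℚ) / x) = z := by
  obtain ⟨s, hs⟩ := natAbs_q x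
  have hx' : (x : ℚ) ≠ 0 := by exact_mod_cast hx
  refine ⟨s * y, ?_⟩
  rw [hs]
  push_cast
  field_simp

/-- the parameter `w` -/
def ww (x0 x1 : ℤ) : ℚ := ((6 * x1 - 5 * x0 : ℤ) : ℚ) / ((2 * x0 : ℤ) : ℚ)

/-- **the uniform measure** for the functionals -/
theorem measU (σ : ℕ) (hσ : σ = 1 ∨ σ = 3) : ∃ c : ℝ, 0 < c ∧ ∀ x0 x1 x2 x3 : ℤ, x0 ≠ 0 →
    ∀ H : ℝ, |(x0 : ℝ)| ≤ H → |(x1 : ℝ)| ≤ H →
    c * H ^ (-(1999 : ℝ)) ≤ max |thX σ (ww x0 x1) - (x2 : ℝ) / x0| |thY σ (ww x0 x1) - (x3 : ℝ) / x0| := by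
  obtain ⟨p0, hp0⟩ := nVU
  obtain ⟨h0, hN2⟩ := nV σ (-3) hσ
  obtain ⟨a0, ha0, ha0'⟩ : ∃ a0 : ℕ, (a0 = 1 ∨ a0 = 3) ∧ (∀ h : ℕ, h % 4 = a0 → h % 4 ≠ σ) := by
    rcases hσ with rfl | rfl
    · exact ⟨3, Or.inr rfl, fun h hh => by omega⟩
    · exact ⟨1, Or.inl rfl, fun h hh => by omega⟩
  obtain ⟨Na, hNa1, hNa2, hNa⟩ := core σ σ hσ hσ (p0 + 50)
  obtain ⟨Nb, hNb1, hNb2, hNb⟩ := core σ a0 hσ ha0 (h0 + 50)
  set N : ℕ := Na + Nb with hN
  refine ⟨Real.exp (-(1999 * (N : ℝ))), Real.exp_pos _, ?_⟩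
  intro x0 x1 x2 x3 hx0 H hH0 hH1
  by_contra hcon
  push Not at hcon
  have hx0r : (1 : ℝ) ≤ |(x0 : ℝ)| := by
    have : (1 : ℤ) ≤ |x0| := Int.one_le_abs hx0
    exact_mod_cast this
  have hH : 1 ≤ H := hx0r.trans hH0
  have hHpos : 0 < H := by linarith
  have hlH : 0 ≤ Real.log H := Real.log_nonneg hH
  have hNr : (N : ℝ) = Na + Nb := by rw [hN]; push_cast; rfl
  have hNa0 : (10 : ℝ) ≤ Na := by exact_mod_cast hNa2
  have hNb0 : (10 : ℝ) ≤ Nb := by exact_mod_cast hNb2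
  set L : ℝ := Real.log H + N with hL
  have hexp : Real.exp (-(1999 * (N : ℝ))) * H ^ (-(1999 : ℝ)) = Real.exp (-(1999 * L)) := by
    rw [Real.rpow_def_of_pos hHpos, ← Real.exp_add]
    congr 1
    rw [hL]
    ring
  rw [hexp] at hcon
  obtain ⟨hcx, hcy⟩ := max_lt_iff.1 hcon
  have hx0' : (x0 : ℚ) ≠ 0 := by exact_mod_cast hx0
  have hux : |(((x2 : ℚ) / (x0 : ℚ) : ℚ) : ℝ) - thX σ (ww x0 x1)| ≤ Real.exp (-(1999 * L)) := by
    rw [abs_sub_comm]
    push_cast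
    exact hcx.le
  have hvy : |(((x3 : ℚ) / (x0 : ℚ) : ℚ) : ℝ) - thY σ (ww x0 x1)| ≤ Real.exp (-(1999 * L)) := by
    rw [abs_sub_comm]
    push_cast
    exact hcy.le
  have hnat : ((x0.natAbs : ℕ) : ℝ) = |(x0 : ℝ)| := by
    rw [Nat.cast_natAbs]; push_cast; rfl
  by_cases hw3 : 6 * x1 + x0 = 0
  · -- the exceptional parameter
    have hww : ww x0 x1 = -3 := by
      unfold ww
      have h1 : (6 * x1 - 5 * x0 : ℤ) = -3 * (2 * x0) := by linarith
      rw [h1]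
      push_cast
      field_simp
    rw [hww] at hux hvy
    refine hNb L (by rw [hL, hNr]; linarith) x0.natAbs x0.natAbs (-3) _ _ (Int.natAbs_pos.2 hx0) ?_ ?_ ?_ hux hvy ?_
    · rw [hnat]
      have h1 : Real.log |(x0 : ℝ)| ≤ Real.log H := Real.log_le_log (by linarith) hH0
      rw [hL, hNr]
      linarith
    · refine ⟨Int.natAbs_pos.2 hx0, ⟨((x0.natAbs : ℕ) : ℤ) * (-3), by rw [Int.cast_mul, Int.cast_natCast]; norm_num⟩,
        uint_q x0 x2 hx0, uint_q x0 x3 hx0⟩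
    · rw [hnat]
      have h1 : Real.log |(x0 : ℝ)| ≤ Real.log H := Real.log_le_log (by linarith) hH0
      have h2 : (1 : ℝ) + |((-3 : ℚ) : ℝ)| = 4 := by
        push_cast
        rw [abs_neg, abs_of_pos (by norm_num)]
        norm_num
      have h3 := log_const (x := 4) (by norm_num) 2 (by norm_num)
      rw [h2, hL, hNr]
      push_cast at h3
      linarith
    · intro h hhp hhN hh4 hhG
      have : Fact h.Prime := ⟨hhp⟩
      have hx : padicNorm h (x0 : ℚ) = 1 := by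
        rw [padicNorm.int_eq_one_iff]
        intro hd
        exact hhG (Int.natCast_dvd.1 hd)
      apply hN2 h (by omega) hhp (by rw [if_pos rfl]; exact ha0' h hh4)
      · rw [padicNorm.div, hx, div_one]; exact padicNorm.of_int _
      · rw [padicNorm.div, hx, div_one]; exact padicNorm.of_int _
  · -- the general parameter
    set n : ℤ := 6 * x1 - 5 * x0 with hn
    set d : ℤ := 2 * x0 with hd
    have hd0 : d ≠ 0 := by rw [hd]; omega
    have hnd : n + 3 * d ≠ 0 := by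
      intro h
      apply hw3
      rw [hn, hd] at h
      linarith
    have hG0 := Gn_ne n d hd0 hnd
    have hdnat : ((d.natAbs : ℕ) : ℝ) = 2 * |(x0 : ℝ)| := by
      rw [Nat.cast_natAbs, hd]
      push_cast
      rw [abs_mul, abs_of_pos (by norm_num : (0 : ℝ) < 2)]
    have hGsize : Real.log ((Gn n d).natAbs : ℕ) ≤ 11 * L := by
      obtain ⟨m, hm0, hm1, hmH⟩ : ∃ m : ℤ, |x0| ≤ m ∧ |x1| ≤ m ∧ (m : ℝ) ≤ H := by
        refine ⟨max |x0| |x1|, le_max_left _ _, le_max_right _ _, ?_⟩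
        push_cast
        exact max_le hH0 hH1
      have hm1' : (1 : ℤ) ≤ m := (Int.one_le_abs hx0).trans hm0
      have h1 : |n| ≤ 11 * m := by
        rw [hn]
        have := abs_sub (6 * x1) (5 * x0)
        rw [abs_mul, abs_mul, show |(6 : ℤ)| = 6 from rfl, show |(5 : ℤ)| = 5 from rfl] at this
        linarith
      have h2 : |d| ≤ 11 * m := by
        rw [hd, abs_mul, show |(2 : ℤ)| = 2 from rfl]
        linarith
      have h3 := Gn_le n d (11 * m) h1 h2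
      have h4 : (((Gn n d).natAbs : ℕ) : ℝ) ≤ 10 ^ 21 * (11 * H) ^ 11 := by
        have h5 : ((|Gn n d| : ℤ) : ℝ) ≤ ((10 ^ 21 * (11 * m) ^ 11 : ℤ) : ℝ) := by exact_mod_cast h3
        rw [Nat.cast_natAbs]
        refine h5.trans ?_
        push_cast
        have hm0r : (0 : ℝ) ≤ m := by
          have : (1 : ℝ) ≤ m := by exact_mod_cast hm1'
          linarith
        gcongr
        norm_num
      have hGpos : (0 : ℝ) < (((Gn n d).natAbs : ℕ) : ℝ) := by exact_mod_cast Int.natAbs_pos.2 hG0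
      have h5 := Real.log_le_log hGpos h4
      rw [Real.log_mul (by positivity) (by positivity), Real.log_pow, Real.log_pow,
        Real.log_mul (by norm_num) hHpos.ne'] at h5
      have h6 := log_const (x := 10) (by norm_num) 3 (by norm_num)
      have h7 := log_const (x := 11) (by norm_num) 3 (by norm_num)
      push_cast at h5 h6 h7
      rw [hL, hNr]
      linarith
    have hwd : ww x0 x1 = (n : ℚ) / d := rfl
    refine hNa L (by rw [hL, hNr]; linarith) (Gn n d).natAbs d.natAbs (ww x0 x1) _ _ (Int.natAbs_pos.2 hG0) hGsize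
      ?_ ?_ hux hvy ?_
    · have hdq : (d : ℚ) ≠ 0 := by exact_mod_cast hd0
      have e2 : ∀ y : ℤ, (y : ℚ) / x0 = ((2 * y : ℤ) : ℚ) / d := by
        intro y
        rw [hd]
        push_cast
        field_simp
      refine ⟨Int.natAbs_pos.2 hd0, ?_, ?_, ?_⟩
      · rw [hwd]; exact uint_q d n hd0
      · rw [e2]; exact uint_q d _ hd0
      · rw [e2]; exact uint_q d _ hd0
    · rw [hdnat]
      have h1 : Real.log (2 * |(x0 : ℝ)|) ≤ Real.log 2 + Real.log H := by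
        rw [Real.log_mul (by norm_num) (by linarith)]
        have := Real.log_le_log (by linarith) hH0
        linarith
      have h2 : (1 : ℝ) + |((ww x0 x1 : ℚ) : ℝ)| ≤ 7 * H := by
        have h3 : ((ww x0 x1 : ℚ) : ℝ) = (6 * x1 - 5 * x0) / (2 * x0) := by
          unfold ww
          push_cast
          rfl
        rw [h3, abs_div, abs_mul, abs_of_pos (by norm_num : (0 : ℝ) < 2)]
        have h4 : |6 * (x1 : ℝ) - 5 * x0| ≤ 11 * H := by
          have := abs_sub (6 * (x1 : ℝ)) (5 * x0)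
          rw [abs_mul, abs_mul, abs_of_pos (by norm_num : (0 : ℝ) < 6), abs_of_pos (by norm_num : (0 : ℝ) < 5)] at this
          linarith
        have h5 : |6 * (x1 : ℝ) - 5 * x0| / (2 * |(x0 : ℝ)|) ≤ 11 * H / 2 :=
          div_le_div₀ (by positivity) h4 (by norm_num) (by linarith)
        linarith
      have h3 : Real.log (1 + |((ww x0 x1 : ℚ) : ℝ)|) ≤ Real.log 7 + Real.log H := by
        rw [← Real.log_mul (by norm_num) hHpos.ne']
        exact Real.log_le_log (by positivity) h2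
      have h6 := log_const (x := 2) (by norm_num) 1 (by norm_num)
      have h7 := log_const (x := 7) (by norm_num) 2 (by norm_num)
      push_cast at h6 h7
      rw [hL, hNr]
      linarith
    · intro h hhp hhN hh4 hhG
      have : Fact h.Prime := ⟨hhp⟩
      have hG : ¬ (h : ℤ) ∣ Gn n d := fun hd => hhG (Int.natCast_dvd.1 hd)
      obtain ⟨u1, u2, u3, u4⟩ := units (p := h) (by omega) n d hG
      have hx : padicNorm h (x0 : ℚ) = 1 := by
        rw [padicNorm.int_eq_one_iff]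
        intro hd'
        rw [padicNorm.int_eq_one_iff] at u1
        exact u1 (by rw [hd]; exact Dvd.dvd.mul_left hd' 2)
      apply hp0 h (by omega) hhp σ hσ hh4 (ww x0 x1) _ _ (by rw [hwd]; exact u3) (by rw [hwd]; exact u2)
      · rw [padicNorm.div, hx, div_one]; exact padicNorm.of_int _
      · rw [padicNorm.div, hx, div_one]; exact padicNorm.of_int _
      · rw [hwd]; exact u4

/-- **the pencil** -/
theorem pencil (ε : ℝ) (hε : ε = 1 ∨ ε = -1) : ∃ c : ℝ, 0 < c ∧ ∀ x0 x1 x2 x3 : ℤ, x0 ≠ 0 →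
    ∀ H : ℝ, |(x0 : ℝ)| ≤ H → |(x1 : ℝ)| ≤ H →
    c * H ^ (-(1999 : ℝ)) ≤ max |8 * x0 * GC + x1 * Real.pi ^ 2 - x2|
      |x0 * (Real.pi ^ 3 + 12 * ε * Z3) + 18 * x1 * Z3 - x3| := by
  rcases hε with rfl | rfl
  · obtain ⟨c, hc, h⟩ := measU 1 (Or.inl rfl)
    refine ⟨c, hc, fun x0 x1 x2 x3 hx0 H hH0 hH1 => ?_⟩
    refine (h x0 x1 x2 x3 hx0 H hH0 hH1).trans ?_
    obtain ⟨v1, v2, v3, v4⟩ := zOne (ww x0 x1)
    have hx0r : (x0 : ℝ) ≠ 0 := by exact_mod_cast hx0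
    have hx1 : (1 : ℝ) ≤ |(x0 : ℝ)| := by
      have : (1 : ℤ) ≤ |x0| := Int.one_le_abs hx0
      exact_mod_cast this
    have hw : ((ww x0 x1 : ℚ) : ℝ) = (6 * x1 - 5 * x0) / (2 * x0) := by
      unfold ww
      push_cast
      rfl
    have e1 : 8 * x0 * GC + x1 * Real.pi ^ 2 - x2 = x0 * (thX 1 (ww x0 x1) - (x2 : ℝ) / x0) := by
      rw [v1, hw]; field_simp; ring
    have e2 : x0 * (Real.pi ^ 3 + 12 * 1 * Z3) + 18 * x1 * Z3 - x3 = x0 * (thY 1 (ww x0 x1) - (x3 : ℝ) / x0) := by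
      rw [v3, hw]; field_simp; ring
    rw [e1, e2, abs_mul, abs_mul]
    apply max_le_max
    · exact le_mul_of_one_le_left (abs_nonneg _) hx1
    · exact le_mul_of_one_le_left (abs_nonneg _) hx1
  · obtain ⟨c, hc, h⟩ := measU 3 (Or.inr rfl)
    refine ⟨c, hc, fun x0 x1 x2 x3 hx0 H hH0 hH1 => ?_⟩
    refine (h (-x0) x1 x2 x3 (by omega) H (by push_cast; rw [abs_neg]; exact hH0) hH1).trans ?_
    obtain ⟨v1, v2, v3, v4⟩ := zOne (ww (-x0) x1)
    have hx0r : (x0 : ℝ) ≠ 0 := by exact_mod_cast hx0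
    have hx1 : (1 : ℝ) ≤ |(x0 : ℝ)| := by
      have : (1 : ℤ) ≤ |x0| := Int.one_le_abs hx0
      exact_mod_cast this
    have hw : ((ww (-x0) x1 : ℚ) : ℝ) = (6 * x1 - 5 * (-x0)) / (2 * (-x0)) := by
      unfold ww
      push_cast
      rfl
    have e1 : 8 * x0 * GC + x1 * Real.pi ^ 2 - x2 = (-x0) * (thX 3 (ww (-x0) x1) - (x2 : ℝ) / (((-x0 : ℤ)) : ℝ)) := by
      rw [v2, hw]; push_cast; field_simp; ring
    have e2 : x0 * (Real.pi ^ 3 + 12 * (-1) * Z3) + 18 * x1 * Z3 - x3 =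
        (-x0) * (thY 3 (ww (-x0) x1) - (x3 : ℝ) / (((-x0 : ℤ)) : ℝ)) := by
      rw [v4, hw]; push_cast; field_simp; ring
    rw [e1, e2, abs_mul, abs_mul, abs_neg]
    apply max_le_max
    · exact le_mul_of_one_le_left (abs_nonneg _) hx1
    · exact le_mul_of_one_le_left (abs_nonneg _) hx1

end

end Pool.Agent.TH957.PB
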